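import Mathlib
import Pool.Agent.E8helper52.RL.Far

/-!
Lower bound with small distortion for the measure of the inverse image of a set under `F` on a far
unit interval.
-/

set_option autoImplicit false

open Real Set Filter Topology MeasureTheory

namespace Pool.Agent.E8helper52.DL

open Pool.Agent.E8helper52.RL
open Pool.Agent.H723R2.LSW (F T F_int F_cont)

section
variable {n m : ℤ} {σ x₀ : ℝ} (hs : 25 ≤ sz n) (hσ : 0 < σ) (hσN : 24 ≤ sz n * σ ^ 2)
  (hx₀ : x₀ ∈ Z n m) (hsin : σ ≤ |sin (π * x₀)|)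
include hs hσ hσN hx₀ hsin

theorem good_cell_low (E : Set ℝ) :
    volume (E ∩ Icc (m : ℝ) (m + 1)) * volume (Z n m) ≤
      ENNReal.ofReal (1 + 48 / (sz n * σ ^ 2)) * volume (F ⁻¹' E ∩ Z n m) := by
  have hs0 : 0 < sz n := by linarith
  have hW : sz n * σ ≤ |dF x₀| := by
    refine le_trans ?_ (dF_lower hs (sz_bounds hx₀.1.1.le hx₀.1.2.le).1)
    gcongr
  have hW0 : 0 < |dF x₀| := lt_of_lt_of_le (by positivity) hW
  set W := |dF x₀| with hWd
  set θ := 12 / (sz n * σ ^ 2) with hθd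
  have hθ0 : 0 < θ := by positivity
  have hθ : θ ≤ 1 / 2 := by
    rw [hθd, div_le_div_iff₀ (by positivity) (by norm_num)]
    linarith
  have hc0 : 0 < (1 - θ) * W := mul_pos (by linarith) hW0
  have h1 : volume (E ∩ Icc (m : ℝ) (m + 1)) ≤ ENNReal.ofReal ((1 + θ) * W) *
      volume (F ⁻¹' E ∩ Z n m) := by
    have a1 : volume (E ∩ Icc (m : ℝ) (m + 1)) ≤ volume (E ∩ Ioo (m : ℝ) (m + 1)) := by
      have hsub : E ∩ Icc (m : ℝ) (m + 1) ⊆ (E ∩ Ioo (m : ℝ) (m + 1)) ∪ {(m : ℝ), (m : ℝ) + 1} := by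
        rintro x ⟨hx, h2, h3⟩
        rcases h2.eq_or_lt with h | h
        · right; left; exact h.symm
        · rcases h3.eq_or_lt with h' | h'
          · right; right; exact h'
          · left; exact ⟨hx, h, h'⟩
      refine (measure_mono hsub).trans ((measure_union_le _ _).trans ?_)
      have : volume ({(m : ℝ), (m : ℝ) + 1} : Set ℝ) = 0 := (Set.toFinite _).measure_zero _
      rw [this, add_zero]
    have a2 : E ∩ Ioo (m : ℝ) (m + 1) ⊆ F '' (F ⁻¹' E ∩ Z n m) := by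
      rintro y ⟨hy, hyI⟩
      obtain ⟨x, hx, rfl⟩ := Z_onto hs hσ hσN hx₀ hsin hyI
      exact ⟨x, ⟨hy, hx⟩, rfl⟩
    refine a1.trans ((measure_mono a2).trans ?_)
    exact vol_image (f := F) (S := F ⁻¹' E ∩ Z n m) (l := (1 + θ) * W)
      (fun y hy z hz => (Z_bilip hs hσ hσN hx₀ hsin hy.2 hz.2).2) (by positivity)
  have h2 : volume (Z n m) ≤ ENNReal.ofReal (1 / ((1 - θ) * W)) := by
    refine (vol_preimage hc0 (f := F) (S := Z n m) (fun y hy z hz =>
      (Z_bilip hs hσ hσN hx₀ hsin hy hz).1)).trans ?_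
    have a3 : volume (F '' Z n m) ≤ 1 := by
      refine (measure_mono (t := Icc (m : ℝ) (m + 1)) ?_).trans ?_
      · rintro _ ⟨y, hy, rfl⟩
        have e : ⌊F y⌋ = m := hy.2
        rw [← e]
        exact ⟨Int.floor_le _, (Int.lt_floor_add_one _).le⟩
      · rw [Real.volume_Icc, add_sub_cancel_left, ENNReal.ofReal_one]
    calc _ ≤ ENNReal.ofReal (1 / ((1 - θ) * W)) * 1 := by gcongr
      _ = _ := mul_one _
  have h3 : (1 + θ) * W * (1 / ((1 - θ) * W)) ≤ 1 + 48 / (sz n * σ ^ 2) := by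
    have e : 48 / (sz n * σ ^ 2) = 4 * θ := by rw [hθd]; ring
    rw [e]
    have : (1 + θ) * W * (1 / ((1 - θ) * W)) = (1 + θ) / (1 - θ) := by
      field_simp
    rw [this, div_le_iff₀ (by linarith)]
    nlinarith
  calc volume (E ∩ Icc (m : ℝ) (m + 1)) * volume (Z n m)
      ≤ (ENNReal.ofReal ((1 + θ) * W) * volume (F ⁻¹' E ∩ Z n m)) *
        ENNReal.ofReal (1 / ((1 - θ) * W)) := by gcongr
    _ = (ENNReal.ofReal ((1 + θ) * W) * ENNReal.ofReal (1 / ((1 - θ) * W))) *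
        volume (F ⁻¹' E ∩ Z n m) := by ring
    _ ≤ _ := by
        gcongr
        rw [← ENNReal.ofReal_mul (by positivity)]
        exact ENNReal.ofReal_le_ofReal h3

end

/-- the measure of a set in a unit interval -/
noncomputable def den (E : Set ℝ) (n : ℤ) : ℝ := (volume (E ∩ Icc (n : ℝ) (n + 1))).toReal

/-- the mean over a unit interval of a function of the integer part of `F` -/
noncomputable def av (g : ℤ → ℝ) (n : ℤ) : ℝ := ∫ x in Ioo (n : ℝ) (n + 1), g ⌊F x⌋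

/-- the parameter -/
noncomputable def sg (s : ℝ) : ℝ := s ^ (-(1 / 4) : ℝ)

/-- the error -/
noncomputable def er (s : ℝ) : ℝ := 48 / (s * sg s ^ 2) + sg s

theorem vol_ne_top (E : Set ℝ) (n : ℤ) : volume (E ∩ Icc (n : ℝ) (n + 1)) ≠ ⊤ := by
  refine ne_top_of_le_ne_top ?_ (measure_mono inter_subset_right)
  rw [Real.volume_Icc]
  exact ENNReal.ofReal_ne_top

theorem den_nonneg (E : Set ℝ) (n : ℤ) : 0 ≤ den E n := ENNReal.toReal_nonneg

theorem den_le_one (E : Set ℝ) (n : ℤ) : den E n ≤ 1 := by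
  unfold den
  refine ENNReal.toReal_le_of_le_ofReal zero_le_one ?_
  refine (measure_mono inter_subset_right).trans ?_
  rw [Real.volume_Icc, add_sub_cancel_left]

theorem den_compl {E : Set ℝ} (hE : MeasurableSet E) (n : ℤ) : den Eᶜ n = 1 - den E n := by
  unfold den
  have h : volume (Icc (n : ℝ) (n + 1) ∩ E) + volume (Icc (n : ℝ) (n + 1) \ E) =
      volume (Icc (n : ℝ) (n + 1)) := measure_inter_add_sdiff _ hE
  rw [Real.volume_Icc, add_sub_cancel_left] at h
  have e : Icc (n : ℝ) (n + 1) \ E = Eᶜ ∩ Icc (n : ℝ) (n + 1) := by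
    rw [Set.sdiff_eq, inter_comm]
  rw [e, inter_comm] at h
  have h2 := congrArg ENNReal.toReal h
  rw [ENNReal.toReal_add (vol_ne_top _ _) (vol_ne_top _ _), ENNReal.toReal_ofReal zero_le_one] at h2
  linarith

theorem g_meas (g : ℤ → ℝ) : Measurable fun x => g ⌊F x⌋ :=
  (measurable_from_top (f := g)).comp (Int.measurable_floor.comp F_cont.measurable)

theorem g_int {g : ℤ → ℝ} {B : ℝ} (hB : ∀ m, |g m| ≤ B) (n : ℤ) :
    IntegrableOn (fun x => g ⌊F x⌋) (Ioo (n : ℝ) (n + 1)) := by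
  refine Measure.integrableOn_of_bounded (M := B) ?_ (g_meas g).aestronglyMeasurable
    (Eventually.of_forall fun x => ?_)
  · rw [Real.volume_Ioo]; exact ENNReal.ofReal_ne_top
  · rw [Real.norm_eq_abs]; exact hB _

section
variable {E : Set ℝ} {n : ℤ} {σ : ℝ}

theorem cell_low (hs : 25 ≤ sz n) (hσ : 0 < σ) (hσN : 24 ≤ sz n * σ ^ 2)
    {g : ℤ → ℝ} (hg1 : ∀ m, g m ≤ 1) {c : ℝ} (hc : 0 ≤ c) (m : ℤ)
    (hg : (Z n m).Nonempty → ENNReal.ofReal (c * g m) ≤ volume (E ∩ Icc (m : ℝ) (m + 1))) :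
    ∫⁻ x in Z n m, ENNReal.ofReal (c * g ⌊F x⌋) ≤
      ENNReal.ofReal (1 + 48 / (sz n * σ ^ 2)) * volume (F ⁻¹' E ∩ Z n m) +
      ENNReal.ofReal c * volume (bad σ ∩ Z n m) := by
  have h0 : ∫⁻ x in Z n m, ENNReal.ofReal (c * g ⌊F x⌋) =
      ENNReal.ofReal (c * g m) * volume (Z n m) := by
    rw [← setLIntegral_const]
    apply setLIntegral_congr_fun (Z_meas n m)
    intro x hx
    have : ⌊F x⌋ = m := hx.2
    simp only [this]
  rw [h0]
  by_cases h : ∃ x₀ ∈ Z n m, σ ≤ |sin (π * x₀)|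
  · obtain ⟨x₀, hx₀, hsin⟩ := h
    refine le_trans ?_ le_self_add
    refine le_trans ?_ (good_cell_low hs hσ hσN hx₀ hsin E)
    gcongr
    exact hg ⟨x₀, hx₀⟩
  · push Not at h
    have e : bad σ ∩ Z n m = Z n m := inter_eq_right.2 fun x hx => h x hx
    rw [e]
    refine le_trans ?_ le_add_self
    gcongr
    have := hg1 m
    nlinarith

theorem unit_low (hE : MeasurableSet E) (hs : 25 ≤ sz n) (hσ : 0 < σ) (hσN : 24 ≤ sz n * σ ^ 2)
    {g : ℤ → ℝ} (hg1 : ∀ m, g m ≤ 1) {c : ℝ} (hc : 0 ≤ c)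
    (hg : ∀ m, (Z n m).Nonempty → ENNReal.ofReal (c * g m) ≤ volume (E ∩ Icc (m : ℝ) (m + 1))) :
    ∫⁻ x in Ioo (n : ℝ) (n + 1), ENNReal.ofReal (c * g ⌊F x⌋) ≤
      ENNReal.ofReal (1 + 48 / (sz n * σ ^ 2)) * volume (F ⁻¹' E ∩ Ioo (n : ℝ) (n + 1)) +
      ENNReal.ofReal c * ENNReal.ofReal σ := by
  have hFE : MeasurableSet (F ⁻¹' E) := F_cont.measurable hE
  have e1 : volume (F ⁻¹' E ∩ Ioo (n : ℝ) (n + 1)) = ∑' m : ℤ, volume (F ⁻¹' E ∩ Z n m) := by
    rw [← Z_union, inter_iUnion, measure_iUnion]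
    · intro i j hij
      exact (Z_disj n hij).mono inter_subset_right inter_subset_right
    · exact fun i => hFE.inter (Z_meas n i)
  have e2 : volume (bad σ ∩ Ioo (n : ℝ) (n + 1)) = ∑' m : ℤ, volume (bad σ ∩ Z n m) := by
    rw [← Z_union, inter_iUnion, measure_iUnion]
    · intro i j hij
      exact (Z_disj n hij).mono inter_subset_right inter_subset_right
    · exact fun i => (bad_meas σ).inter (Z_meas n i)
  calc ∫⁻ x in Ioo (n : ℝ) (n + 1), ENNReal.ofReal (c * g ⌊F x⌋)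
      = ∑' m : ℤ, ∫⁻ x in Z n m, ENNReal.ofReal (c * g ⌊F x⌋) := by
        rw [← Z_union, lintegral_iUnion (Z_meas n) (Z_disj n)]
    _ ≤ ∑' m : ℤ, (ENNReal.ofReal (1 + 48 / (sz n * σ ^ 2)) * volume (F ⁻¹' E ∩ Z n m) +
        ENNReal.ofReal c * volume (bad σ ∩ Z n m)) :=
        ENNReal.tsum_le_tsum fun m => cell_low hs hσ hσN hg1 hc m (hg m)
    _ = ENNReal.ofReal (1 + 48 / (sz n * σ ^ 2)) * volume (F ⁻¹' E ∩ Ioo (n : ℝ) (n + 1)) +
        ENNReal.ofReal c * volume (bad σ ∩ Ioo (n : ℝ) (n + 1)) := by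
        rw [ENNReal.tsum_add, ENNReal.tsum_mul_left, ENNReal.tsum_mul_left, e1, e2]
    _ ≤ _ := by
        gcongr
        exact bad_vol n hσ

/-- the one step lower bound -/
theorem low_step (hE : MeasurableSet E) (hinv : F ⁻¹' E = E) (hsz : 25 ≤ sz n)
    (hσN : 24 ≤ sz n * sg (sz n) ^ 2)
    {g : ℤ → ℝ} (hg0 : ∀ m, 0 ≤ g m) (hg1 : ∀ m, g m ≤ 1) {c : ℝ} (hc : 0 ≤ c)
    (hg : ∀ m, (Z n m).Nonempty → c * g m ≤ den E m) :
    c * (av g n - er (sz n)) ≤ den E n := by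
  have hσ : 0 < sg (sz n) := Real.rpow_pos_of_pos (by linarith) _
  set σ : ℝ := sg (sz n) with hσd
  have h1 := unit_low (n := n) (c := c) (g := g) hE hsz hσ hσN hg1 hc (by
    intro m hm
    have := hg m hm
    rw [← ENNReal.ofReal_toReal (vol_ne_top E m)]
    exact ENNReal.ofReal_le_ofReal this)
  have h2 : volume (F ⁻¹' E ∩ Ioo (n : ℝ) (n + 1)) ≤ ENNReal.ofReal (den E n) := by
    unfold den
    rw [ENNReal.ofReal_toReal (vol_ne_top E n), hinv]
    exact measure_mono (inter_subset_inter_right _ Ioo_subset_Icc_self)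
  set η : ℝ := 48 / (sz n * σ ^ 2) with hη
  have hη0 : 0 ≤ η := by
    have : 0 < sz n := by linarith
    positivity
  have h3 : ∫⁻ x in Ioo (n : ℝ) (n + 1), ENNReal.ofReal (c * g ⌊F x⌋) =
      ENNReal.ofReal (c * av g n) := by
    unfold av
    rw [← integral_const_mul, ofReal_integral_eq_lintegral_ofReal]
    · exact (g_int (g := g) (B := 1) (fun m => by rw [abs_of_nonneg (hg0 m)]; exact hg1 m) n).const_mul c
    · exact Eventually.of_forall fun x => mul_nonneg hc (hg0 _)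
  have hd0 := den_nonneg E n
  have h4 : ENNReal.ofReal (c * av g n) ≤ ENNReal.ofReal ((1 + η) * den E n + c * σ) := by
    rw [← h3]
    refine h1.trans ?_
    have a1 : 0 ≤ (1 + η) * den E n := by positivity
    have a2 : 0 ≤ c * σ := by positivity
    rw [ENNReal.ofReal_add a1 a2, ENNReal.ofReal_mul (by positivity : 0 ≤ 1 + η),
      ENNReal.ofReal_mul hc]
    gcongr
  have h5 : c * av g n ≤ (1 + η) * den E n + c * σ :=
    (ENNReal.ofReal_le_ofReal_iff (by positivity)).1 h4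
  have h6 : av g n ≤ 1 := by
    unfold av
    calc ∫ x in Ioo (n : ℝ) (n + 1), g ⌊F x⌋ ≤ ∫ x in Ioo (n : ℝ) (n + 1), (1 : ℝ) := by
          apply setIntegral_mono
          · exact g_int (g := g) (B := 1) (fun m => by rw [abs_of_nonneg (hg0 m)]; exact hg1 m) n
          · exact integrableOn_const (by rw [Real.volume_Ioo]; exact ENNReal.ofReal_ne_top)
          · exact fun x => hg1 _
      _ = 1 := by simp
  have e : er (sz n) = η + σ := by
    unfold er
    rw [hη, hσd]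
  rw [e]
  rcases le_total c (den E n) with h | h
  · nlinarith
  · nlinarith

end

end Pool.Agent.E8helper52.DL
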