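import Mathlib
import Pool.Agent.E8helper52.DL.Low

/-!
The density of an invariant set in far unit intervals is controlled by its values on a window.
-/

set_option autoImplicit false

open Real Set Filter Topology MeasureTheory

namespace Pool.Agent.E8helper52.DL

open Pool.Agent.E8helper52.RL
open Pool.Agent.H723R2.LSW (F T F_int F_cont)

/-- large sizes -/
structure Good (s : ℝ) : Prop where
  h1 : 384 ≤ s
  h2 : 24 ≤ s * sg s ^ 2
  h3 : s ^ (-(1 / 16) : ℝ) - (s + 3) ^ (-(1 / 16) : ℝ) + er s ≤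
    1 / 256 * (s + 3) ^ (-(1 / 16) : ℝ)
  h4 : er s ≤ s ^ (-(1 / 16) : ℝ)
  h5 : s ^ (-(1 / 16) : ℝ) ≤ 1 / 2

/-- the constant -/
structure BigAll (M : ℝ) : Prop where
  h0 : 384 ≤ M
  h1 : ∀ s, M ≤ s → Good s

theorem exists_good : ∃ M : ℝ, BigAll M := by
  have t1 : Tendsto (fun s : ℝ => s ^ (-(7 / 16) : ℝ)) atTop (𝓝 0) :=
    tendsto_rpow_neg_atTop (by norm_num)
  have t2 : Tendsto (fun s : ℝ => s ^ (-(3 / 16) : ℝ)) atTop (𝓝 0) :=
    tendsto_rpow_neg_atTop (by norm_num)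
  have t3 : Tendsto (fun s : ℝ => s ^ (-(1 / 16) : ℝ)) atTop (𝓝 0) :=
    tendsto_rpow_neg_atTop (by norm_num)
  have e1 := t1.eventually_le_const (show (0 : ℝ) < 1 / (48 * 2048) by norm_num)
  have e2 := t2.eventually_le_const (show (0 : ℝ) < 1 / 2048 by norm_num)
  have e3 := t3.eventually_le_const (show (0 : ℝ) < 1 / 2 by norm_num)
  obtain ⟨M, hM⟩ := ((e1.and e2).and (e3.and (eventually_ge_atTop (384 : ℝ)))).exists_forall_of_atTop
  refine ⟨max M 384, le_max_right _ _, fun s hs => ?_⟩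
  obtain ⟨⟨a1, a2⟩, a3, a4⟩ := hM s ((le_max_left _ _).trans hs)
  have hs0 : 0 < s := by linarith
  set p := s ^ (-(1 / 16) : ℝ) with hp
  have hp0 : 0 < p := Real.rpow_pos_of_pos hs0 _
  have f1 : sg s = p * s ^ (-(3 / 16) : ℝ) := by
    unfold sg
    rw [hp, ← Real.rpow_add hs0]
    norm_num
  have f2 : s * sg s ^ 2 = s ^ (1 / 2 : ℝ) := by
    unfold sg
    rw [← Real.rpow_natCast, ← Real.rpow_mul hs0.le]
    nth_rewrite 1 [← Real.rpow_one s]
    rw [← Real.rpow_add hs0]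
    norm_num
  have f3 : 48 / (s * sg s ^ 2) = 48 * (p * s ^ (-(7 / 16) : ℝ)) := by
    rw [f2, hp, ← Real.rpow_add hs0, div_eq_mul_inv, ← Real.rpow_neg hs0.le]
    norm_num
  have f4 : er s ≤ p * (1 / 1024) := by
    unfold er
    rw [f3, f1]
    nlinarith
  have f5 : p * (1 - 3 / 16 / s) ≤ (s + 3) ^ (-(1 / 16) : ℝ) := by
    have h1 : s + 3 = s * (1 + 3 / s) := by field_simp
    have h2 : 0 < 1 + 3 / s := by positivity
    rw [h1, Real.mul_rpow hs0.le h2.le]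
    apply mul_le_mul_of_nonneg_left _ hp0.le
    rw [Real.rpow_def_of_pos h2]
    have h3 := Real.log_le_sub_one_of_pos h2
    have h4 := Real.add_one_le_exp (log (1 + 3 / s) * -(1 / 16))
    have h5 : 3 / 16 / s = 3 / s * (1 / 16) := by ring
    rw [h5]
    linarith
  have f6 : 3 / 16 / s ≤ 1 / 2048 := by
    rw [div_le_div_iff₀ hs0 (by norm_num)]
    linarith
  refine ⟨a4, ?_, ?_, ?_, a3⟩
  · rw [f2]
    have h1 : s ^ (-(7 / 16) : ℝ) ≤ 1 / (48 * 2048) := a1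
    have h2 : (48 * 2048 : ℝ) ≤ s ^ (7 / 16 : ℝ) := by
      rw [Real.rpow_neg hs0.le, ← one_div, div_le_div_iff₀ (Real.rpow_pos_of_pos hs0 _)
        (by norm_num)] at h1
      linarith
    have h3 : s ^ (7 / 16 : ℝ) ≤ s ^ (1 / 2 : ℝ) :=
      Real.rpow_le_rpow_of_exponent_le (by linarith) (by norm_num)
    linarith
  · nlinarith
  · nlinarith

/-- the barrier -/
noncomputable def HH (ε y₀ y : ℝ) : ℝ := ε * log y + (y₀ ^ (-(1 / 16) : ℝ) - y ^ (-(1 / 16) : ℝ))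

theorem HH_mono {ε y₀ y z : ℝ} (hε : 0 ≤ ε) (hy : 1 < y) (hyz : y ≤ z) : HH ε y₀ y ≤ HH ε y₀ z := by
  unfold HH
  have h1 : log y ≤ log z := Real.log_le_log (by linarith) hyz
  have h3 : z ^ (-(1 / 16) : ℝ) ≤ y ^ (-(1 / 16) : ℝ) :=
    Real.rpow_le_rpow_of_nonpos (by linarith) hyz (by norm_num)
  have h4 : ε * log y ≤ ε * log z := mul_le_mul_of_nonneg_left h1 hε
  linarith

theorem HH_nonneg {ε y y₀ : ℝ} (hε : 0 ≤ ε) (hy0 : 1 < y₀) (hy : y₀ ≤ y) : 0 ≤ HH ε y₀ y := by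
  have h := HH_mono (y₀ := y₀) hε hy0 hy
  have h2 : 0 ≤ HH ε y₀ y₀ := by
    unfold HH
    rw [sub_self, add_zero]
    exact mul_nonneg hε (Real.log_pos hy0).le
  linarith

/-- the pointwise bound for the barrier -/
theorem HH_point {n : ℤ} {ε y₀ : ℝ} (hs : 384 ≤ sz n) (hε : 0 ≤ ε) {x : ℝ} (h1 : (n : ℝ) ≤ x)
    (h2 : x ≤ n + 1) :
    HH ε y₀ |F x| ≤ ε * (log (sz n + 3) + xi x) +
      (y₀ ^ (-(1 / 16) : ℝ) - (sz n + 3) ^ (-(1 / 16) : ℝ) * (1 - 1 / 16 * xi x)) := by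
  obtain ⟨a, b⟩ := F_upper h1 h2
  obtain ⟨z1, z2⟩ := ze_bounds x
  have hpos : 1 < |F x| := by nlinarith
  have hm := HH_mono (y₀ := y₀) hε hpos a
  refine hm.trans ?_
  have hlog : log ((sz n + 3) * ze x) = log (sz n + 3) + xi x := by
    unfold xi
    rw [Real.log_mul (by linarith) (by linarith)]
  unfold HH
  rw [hlog, Real.mul_rpow (by linarith) (by linarith)]
  have h3 : 1 - 1 / 16 * xi x ≤ (ze x) ^ (-(1 / 16) : ℝ) := by
    rw [Real.rpow_def_of_pos (by linarith)]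
    have h4 := Real.add_one_le_exp (log (ze x) * -(1 / 16))
    unfold xi
    linarith
  have h5 : 0 < (sz n + 3) ^ (-(1 / 16) : ℝ) := Real.rpow_pos_of_pos (by linarith) _
  have h6 := mul_le_mul_of_nonneg_left h3 h5.le
  linarith

/-- the two sides of the integers -/
def On (b : Bool) (n : ℤ) : Prop := if b then 0 ≤ n else n < 0

theorem on_image {b : Bool} {n : ℤ} {x : ℝ} (hb : On b n) (hs : 4 ≤ sz n) (h1 : (n : ℝ) ≤ x)
    (h2 : x ≤ n + 1) : On b ⌊F x⌋ := by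
  obtain ⟨a, -⟩ := sz_bounds h1 h2
  have h := abs_le.1 (F_near x)
  obtain ⟨z1, z2⟩ := ze_bounds x
  cases b with
  | true =>
    have hn : (0 : ℤ) ≤ n := hb
    have hn' : (0 : ℝ) ≤ n := by exact_mod_cast hn
    rw [abs_of_nonneg (by linarith)] at a
    show (0 : ℤ) ≤ ⌊F x⌋
    rw [Int.floor_nonneg]
    nlinarith [h.1]
  | false =>
    have hn : n < 0 := by simpa [On] using hb
    have hn' : (n : ℝ) ≤ -1 := by
      have : n ≤ -1 := by omega
      exact_mod_cast this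
    rw [abs_of_nonpos (by linarith)] at a
    have : ⌊F x⌋ < 0 := by
      rw [Int.floor_lt]
      push_cast
      nlinarith [h.2]
    simpa [On] using this

theorem floor_size {n : ℤ} {x y₀ : ℝ} (hy : y₀ ≤ (sz n - 4) / 2) (hs : 4 ≤ sz n)
    (h1 : (n : ℝ) ≤ x) (h2 : x ≤ n + 1) : y₀ ≤ sz ⌊F x⌋ ∧ sz ⌊F x⌋ ≤ |F x| := by
  obtain ⟨a, b⟩ := F_upper h1 h2
  obtain ⟨z1, z2⟩ := ze_bounds x
  obtain ⟨c, d⟩ := sz_floor (F x)
  refine ⟨?_, d⟩
  nlinarith

theorem affine_lower {n : ℤ} {g : ℤ → ℝ} (hg0 : ∀ m, 0 ≤ g m) (hg1 : ∀ m, g m ≤ 1) {c₀ c₁ : ℝ}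
    (h : 0 ≤ c₁) (hpt : ∀ x ∈ Ioo (n : ℝ) (n + 1), 1 - (c₀ + c₁ * xi x) ≤ g ⌊F x⌋) :
    1 - c₀ + c₁ / 16 ≤ av g n := by
  have h3 := affine_integral n c₀ h
  have hi : IntegrableOn (fun x => c₀ + c₁ * xi x) (Ioo (n : ℝ) (n + 1)) :=
    ((continuous_const.add (continuous_const.mul xi_cont)).integrableOn_Icc
      (a := (n : ℝ)) (b := n + 1)).mono_set Ioo_subset_Icc_self
  have h1 : IntegrableOn (fun _ : ℝ => (1 : ℝ)) (Ioo (n : ℝ) (n + 1)) :=
    integrableOn_const (by rw [Real.volume_Ioo]; exact ENNReal.ofReal_ne_top)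
  have e : ∫ x in Ioo (n : ℝ) (n + 1), (1 - (c₀ + c₁ * xi x)) =
      1 - ∫ x in (n : ℝ)..(n + 1), (c₀ + c₁ * xi x) := by
    rw [integral_sub h1 hi, intervalIntegral.integral_of_le (by linarith),
      integral_Ioc_eq_integral_Ioo]
    simp
  have h2 : ∫ x in Ioo (n : ℝ) (n + 1), (1 - (c₀ + c₁ * xi x)) ≤ av g n := by
    unfold av
    apply setIntegral_mono_on (h1.sub hi) _ measurableSet_Ioo hpt
    exact g_int (g := g) (B := 1) (fun m => by rw [abs_of_nonneg (hg0 m)]; exact hg1 m) n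
  linarith

/-- one step of the barrier argument -/
theorem barrier_step {E : Set ℝ} (hE : MeasurableSet E) (hinv : F ⁻¹' E = E) {b : Bool} {n : ℤ}
    (hb : On b n) (hs : Good (sz n)) {y₀ S ε c : ℝ} (hy1 : 1 < y₀) (hy0 : y₀ ≤ (sz n - 4) / 2)
    (hS : 0 ≤ S) (hε : 0 ≤ ε) (hc : 0 ≤ c)
    (hG : ∀ m : ℤ, On b m → y₀ ≤ sz m → c * (1 - (S + HH ε y₀ (sz m))) ≤ den E m) :
    c * (1 - (S - ε / 32 + HH ε y₀ (sz n))) ≤ den E n := by
  have hsz := hs.h1
  have hs3 := hs.h3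
  set g : ℤ → ℝ := fun m => max 0 (min 1 (1 - (S + HH ε y₀ (sz m)))) with hg
  have hg0 : ∀ m, 0 ≤ g m := fun m => le_max_left _ _
  have hg1 : ∀ m, g m ≤ 1 := fun m => max_le zero_le_one (min_le_left _ _)
  have hfl : ∀ x ∈ Ioo (n : ℝ) (n + 1), y₀ ≤ sz ⌊F x⌋ ∧ sz ⌊F x⌋ ≤ |F x| := fun x hx =>
    floor_size hy0 (by linarith) hx.1.le hx.2.le
  have h1 := low_step (g := g) hE hinv (by linarith) hs.h2 hg0 hg1 hc (by
    rintro m ⟨x, hx⟩
    have hm : ⌊F x⌋ = m := hx.2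
    have h2 := (hfl x hx.1).1
    have h3 := on_image hb (by linarith) hx.1.1.le hx.1.2.le
    rw [hm] at h2 h3
    have h5 := hG m h3 h2
    have h6 : g m ≤ max 0 (1 - (S + HH ε y₀ (sz m))) := max_le_max le_rfl (min_le_right _ _)
    have h7 := den_nonneg E m
    calc c * g m ≤ c * max 0 (1 - (S + HH ε y₀ (sz m))) := by gcongr
      _ ≤ den E m := by
        rcases max_choice 0 (1 - (S + HH ε y₀ (sz m))) with h | h
        · rw [h, mul_zero]; exact h7
        · rw [h]; exact h5)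
  set q := (sz n + 3) ^ (-(1 / 16) : ℝ) with hq
  have hq0 : 0 < q := Real.rpow_pos_of_pos (by linarith) _
  set c₀ : ℝ := S + ε * log (sz n + 3) + (y₀ ^ (-(1 / 16) : ℝ) - q) with hc₀
  set c₁ : ℝ := ε + 1 / 16 * q with hc₁
  have hc₁0 : 0 ≤ c₁ := by positivity
  have h2 : 1 - c₀ + c₁ / 16 ≤ av g n := by
    apply affine_lower hg0 hg1 hc₁0
    intro x hx
    obtain ⟨a, b⟩ := hfl x hx
    have h3 := HH_nonneg hε hy1 a
    have h4 : g ⌊F x⌋ = max 0 (1 - (S + HH ε y₀ (sz ⌊F x⌋))) := by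
      rw [hg]
      simp only
      rw [min_eq_right (by linarith)]
    have h5 := HH_mono (y₀ := y₀) hε (hy1.trans_le a) b
    have h6 := HH_point (y₀ := y₀) hsz hε hx.1.le hx.2.le
    rw [← hq] at h6
    have e : c₀ + c₁ * xi x = S + (ε * (log (sz n + 3) + xi x) +
      (y₀ ^ (-(1 / 16) : ℝ) - q * (1 - 1 / 16 * xi x))) := by
      rw [hc₀, hc₁]; ring
    rw [e, h4]
    refine le_trans ?_ (le_max_right _ _)
    linarith
  have hfin : 1 - (S - ε / 32 + HH ε y₀ (sz n)) ≤ av g n - er (sz n) := by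
    have hll : log (sz n + 3) - log (sz n) ≤ 1 / 32 := by
      have h4 : log (sz n + 3) - log (sz n) = log (1 + 3 / sz n) := by
        rw [← Real.log_div (by linarith) (by linarith)]
        congr 1
        have : sz n ≠ 0 := by linarith
        field_simp
      rw [h4]
      have h5 : 0 < 3 / sz n := by
        have : 0 < sz n := by linarith
        positivity
      have h6 := Real.log_le_sub_one_of_pos (show 0 < 1 + 3 / sz n by linarith)
      have h7 : 3 / sz n ≤ 1 / 32 := by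
        rw [div_le_div_iff₀ (by linarith) (by norm_num)]
        linarith
      linarith
    have h8 : ε * (log (sz n + 3) - log (sz n) - 1 / 32) ≤ 0 :=
      mul_nonpos_of_nonneg_of_nonpos hε (by linarith)
    unfold HH
    have e : 1 - c₀ + c₁ / 16 = 1 - S - ε * log (sz n + 3) - y₀ ^ (-(1 / 16) : ℝ) + q +
        ε / 16 + 1 / 256 * q := by
      rw [hc₀, hc₁]; ring
    rw [e] at h2
    nlinarith
  exact (mul_le_mul_of_nonneg_left hfin hc).trans h1

theorem barrier {M : ℝ} (hM : BigAll M) {E : Set ℝ} (hE : MeasurableSet E) (hinv : F ⁻¹' E = E)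
    {b : Bool} {y₀ c : ℝ} (hy : M ≤ y₀) (hc : 0 ≤ c)
    (hw : ∀ n : ℤ, On b n → y₀ ≤ sz n → sz n ≤ 2 * y₀ + 5 → c ≤ den E n) {n : ℤ} (hb : On b n)
    (hn : y₀ ≤ sz n) : c * (1 - y₀ ^ (-(1 / 16) : ℝ)) ≤ den E n := by
  have hy3 : 384 ≤ y₀ := hM.h0.trans hy
  have key : ∀ ε : ℝ, 0 < ε → ∀ j : ℕ, ∀ n : ℤ, On b n → y₀ ≤ sz n →
      c * (1 - (max (1 - j * (ε / 32)) 0 + HH ε y₀ (sz n))) ≤ den E n := by
    intro ε hε j
    induction j with
    | zero =>
      intro n hbn hn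
      have h1 := HH_nonneg hε.le (by linarith) hn
      have h2 : (1 : ℝ) ≤ max (1 - ((0 : ℕ) : ℝ) * (ε / 32)) 0 := by
        refine le_trans ?_ (le_max_left _ _)
        simp
      have h3 := den_nonneg E n
      have h4 : c * (1 - (max (1 - ((0 : ℕ) : ℝ) * (ε / 32)) 0 + HH ε y₀ (sz n))) ≤ 0 :=
        mul_nonpos_of_nonneg_of_nonpos hc (by linarith)
      linarith
    | succ j ih =>
      intro n hbn hn
      have hH := HH_nonneg hε.le (by linarith) hn
      rcases le_or_gt (sz n) (2 * y₀ + 5) with hlt | hge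
      · have h1 := hw n hbn hn hlt
        have h2 := le_max_right (1 - ((j + 1 : ℕ) : ℝ) * (ε / 32)) 0
        nlinarith
      · have h1 := barrier_step hE hinv hbn (hM.h1 _ (by linarith)) (y₀ := y₀)
          (S := max (1 - j * (ε / 32)) 0) (ε := ε) (by linarith) (by linarith)
          (le_max_right _ _) hε.le hc ih
        refine le_trans ?_ h1
        have h2 : max (1 - (j : ℝ) * (ε / 32)) 0 - ε / 32 ≤
            max (1 - ((j + 1 : ℕ) : ℝ) * (ε / 32)) 0 := by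
          push_cast
          rcases le_total (1 - (j : ℝ) * (ε / 32)) 0 with h | h
          · rw [max_eq_right h]
            have := le_max_right (1 - ((j : ℝ) + 1) * (ε / 32)) 0
            linarith
          · rw [max_eq_left h]
            have := le_max_left (1 - ((j : ℝ) + 1) * (ε / 32)) 0
            linarith
        apply mul_le_mul_of_nonneg_left _ hc
        linarith
  have hlog : 0 < log (sz n) := Real.log_pos (by linarith)
  have hlim : ∀ ε : ℝ, 0 < ε → c * (1 - HH ε y₀ (sz n)) ≤ den E n := by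
    intro ε hε
    obtain ⟨j, hj⟩ := exists_nat_gt (32 / ε)
    have h1 := key ε hε j n hb hn
    have h2 : max (1 - (j : ℝ) * (ε / 32)) 0 = 0 := by
      apply max_eq_right
      rw [div_lt_iff₀ hε] at hj
      linarith
    rwa [h2, zero_add] at h1
  have hp : 0 < (sz n) ^ (-(1 / 16) : ℝ) := Real.rpow_pos_of_pos (by linarith) _
  have h3 := hlim ((sz n) ^ (-(1 / 16) : ℝ) / log (sz n)) (by positivity)
  have h4 : HH ((sz n) ^ (-(1 / 16) : ℝ) / log (sz n)) y₀ (sz n) = y₀ ^ (-(1 / 16) : ℝ) := by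
    unfold HH
    rw [div_mul_cancel₀ _ hlog.ne']
    ring
  rwa [h4] at h3

end Pool.Agent.E8helper52.DL
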