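import Mathlib
import Pool.Agent.E8helper52.DL.Barrier

/-!
From a window of unit intervals the images have a common part.
-/

set_option autoImplicit false

open Real Set Filter Topology MeasureTheory

namespace Pool.Agent.E8helper52.DL

open Pool.Agent.E8helper52.RL
open Pool.Agent.H723R2.LSW (F T F_int F_cont)

/-- the unit interval at `m` is between the values of `T` at `n` and `n + 1` -/
def Btw (n m : ℤ) : Prop := (T n ≤ m ∧ m + 1 ≤ T (n + 1)) ∨ (T (n + 1) ≤ m ∧ m + 1 ≤ T n)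

theorem onto {n m : ℤ} (h : Btw n m) : Ioo (m : ℝ) (m + 1) ⊆ F '' Z n m := by
  intro y hy
  have e0 : F n = T n := F_int n
  have e1 : F ((n : ℝ) + 1) = T (n + 1) := by
    have := F_int (n + 1)
    push_cast at this
    exact this
  have hfy : ⌊y⌋ = m := by
    rw [Int.floor_eq_iff]
    exact ⟨hy.1.le, hy.2⟩
  rcases h with ⟨h1, h2⟩ | ⟨h1, h2⟩
  · have g1 : F n ≤ m := by rw [e0]; exact_mod_cast h1
    have g2 : (m : ℝ) + 1 ≤ F (n + 1) := by rw [e1]; exact_mod_cast h2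
    obtain ⟨a, ha, hFa⟩ := intermediate_value_Ioo (by linarith : (n : ℝ) ≤ n + 1) (f := F)
      F_cont.continuousOn (show y ∈ Ioo (F n) (F (n + 1)) from
        ⟨by linarith [hy.1], by linarith [hy.2]⟩)
    exact ⟨a, ⟨ha, by rw [mem_ofPred_eq, hFa]; exact hfy⟩, hFa⟩
  · have g1 : F (n + 1) ≤ m := by rw [e1]; exact_mod_cast h1
    have g2 : (m : ℝ) + 1 ≤ F n := by rw [e0]; exact_mod_cast h2
    obtain ⟨a, ha, hFa⟩ := intermediate_value_Ioo' (by linarith : (n : ℝ) ≤ n + 1) (f := F)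
      F_cont.continuousOn (show y ∈ Ioo (F (n + 1)) (F n) from
        ⟨by linarith [hy.1], by linarith [hy.2]⟩)
    exact ⟨a, ⟨ha, by rw [mem_ofPred_eq, hFa]; exact hfy⟩, hFa⟩

theorem F_lip {n : ℤ} (hs : 25 ≤ sz n) {y z : ℝ} (hy : y ∈ Icc (n : ℝ) (n + 1))
    (hz : z ∈ Icc (n : ℝ) (n + 1)) : |F y - F z| ≤ 2 * sz n * |y - z| := by
  have aux : ∀ y z : ℝ, y ∈ Icc (n : ℝ) (n + 1) → z ∈ Icc (n : ℝ) (n + 1) → y < z →
      |F z - F y| ≤ 2 * sz n * |z - y| := by
    intro y z hy hz hyz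
    obtain ⟨w, hw, e⟩ := F_mvt hyz
    rw [e, abs_mul]
    apply mul_le_mul_of_nonneg_right _ (abs_nonneg _)
    obtain ⟨a, b⟩ := sz_bounds (hy.1.trans hw.1.le) (hw.2.le.trans hz.2)
    unfold dF
    rw [abs_mul]
    have h1 := hh_upper w
    have h2 := Real.abs_sin_le_one (π * w)
    calc |sin (π * w)| * |hh w| ≤ 1 * (1.6 * |w| + 3) := by
          apply mul_le_mul h2 h1 (abs_nonneg _) zero_le_one
      _ ≤ 2 * sz n := by linarith
  rcases lt_trichotomy y z with h | h | h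
  · have := aux y z hy hz h
    rwa [abs_sub_comm, abs_sub_comm z] at this
  · rw [h]; simp
  · exact aux z y hz hy h

theorem Z_large {n m : ℤ} (hs : 25 ≤ sz n) (h : Btw n m) :
    1 / (2 * sz n) ≤ (volume (Z n m)).toReal := by
  have h1 : 1 ≤ ENNReal.ofReal (2 * sz n) * volume (Z n m) := by
    have h3 := vol_image (f := F) (S := Z n m) (l := 2 * sz n)
      (fun y hy z hz => F_lip hs (Ioo_subset_Icc_self hy.1) (Ioo_subset_Icc_self hz.1))
      (by linarith)
    refine le_trans ?_ h3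
    have h4 := measure_mono (μ := volume) (onto h)
    rw [Real.volume_Ioo] at h4
    refine le_trans ?_ h4
    rw [add_sub_cancel_left, ENNReal.ofReal_one]
  have hfin : volume (Z n m) ≠ ⊤ := by
    refine ne_top_of_le_ne_top ?_ (measure_mono (inter_subset_left : Z n m ⊆ Ioo (n : ℝ) (n + 1)))
    rw [Real.volume_Ioo]
    exact ENNReal.ofReal_ne_top
  have h2 := ENNReal.toReal_mono (ENNReal.mul_ne_top ENNReal.ofReal_ne_top hfin) h1
  rw [ENNReal.toReal_mul, ENNReal.toReal_ofReal (by linarith), ENNReal.toReal_one] at h2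
  rw [div_le_iff₀ (by linarith)]
  linarith

theorem av_lower {n : ℤ} (hs : 25 ≤ sz n) {g : ℤ → ℝ} (hg0 : ∀ m, 0 ≤ g m) (hg1 : ∀ m, g m ≤ 1)
    (V : Finset ℤ) (hV : ∀ m ∈ V, Btw n m) : (∑ m ∈ V, g m) / (2 * sz n) ≤ av g n := by
  have hi : IntegrableOn (fun x => g ⌊F x⌋) (Ioo (n : ℝ) (n + 1)) :=
    g_int (g := g) (B := 1) (fun m => by rw [abs_of_nonneg (hg0 m)]; exact hg1 m) n
  have hsub : (⋃ m ∈ V, Z n m) ⊆ Ioo (n : ℝ) (n + 1) := by
    apply iUnion₂_subset
    exact fun m _ => inter_subset_left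
  have e : ∫ x in ⋃ m ∈ V, Z n m, g ⌊F x⌋ = ∑ m ∈ V, ∫ x in Z n m, g ⌊F x⌋ := by
    apply integral_biUnion_finset
    · exact fun m _ => Z_meas n m
    · exact fun i _ j _ hij => Z_disj n hij
    · exact fun m _ => hi.mono_set inter_subset_left
  have e2 : ∀ m ∈ V, g m / (2 * sz n) ≤ ∫ x in Z n m, g ⌊F x⌋ := by
    intro m hm
    have e3 : ∫ x in Z n m, g ⌊F x⌋ = ∫ x in Z n m, g m := by
      apply setIntegral_congr_fun (Z_meas n m)
      intro x hx
      have : ⌊F x⌋ = m := hx.2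
      simp only [this]
    have e4 := mul_le_mul_of_nonneg_right (Z_large hs (hV m hm)) (hg0 m)
    rw [e3, setIntegral_const, smul_eq_mul, div_eq_mul_one_div, mul_comm (g m)]
    exact e4
  calc (∑ m ∈ V, g m) / (2 * sz n) = ∑ m ∈ V, g m / (2 * sz n) := Finset.sum_div _ _ _
    _ ≤ ∑ m ∈ V, ∫ x in Z n m, g ⌊F x⌋ := Finset.sum_le_sum e2
    _ = ∫ x in ⋃ m ∈ V, Z n m, g ⌊F x⌋ := e.symm
    _ ≤ av g n := by
        unfold av
        exact setIntegral_mono_set hi (Eventually.of_forall fun x => hg0 _)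
          (LE.le.eventuallyLE hsub)

/-- the common target -/
noncomputable def VV (b : Bool) (K : ℕ) : Finset ℤ :=
  if b then Finset.Ico ((K : ℤ) + 5) (K + 5 + K / 4) else Finset.Ioc (-(K : ℤ) - 6 - K / 4) (-K - 6)

theorem VV_card (b : Bool) (K : ℕ) : (VV b K).card = K / 4 := by
  unfold VV
  cases b with
  | true => simp; omega
  | false => simp; omega

theorem sz_nonneg_side {n : ℤ} (h : 0 ≤ n) : sz n = n := by
  have h' : (0 : ℝ) ≤ n := by exact_mod_cast h
  unfold sz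
  rw [abs_of_nonneg h', abs_of_nonneg (by linarith), min_eq_left (by linarith)]

theorem sz_neg_side {n : ℤ} (h : n < 0) : sz n = ((-n - 1 : ℤ) : ℝ) := by
  have h' : (n : ℝ) ≤ -1 := by
    have : n ≤ -1 := by omega
    exact_mod_cast this
  unfold sz
  rw [abs_of_nonpos (by linarith), abs_of_nonpos (by linarith), min_eq_right (by linarith)]
  push_cast
  ring

theorem VV_mem {b : Bool} {K : ℕ} {m : ℤ} (h : m ∈ VV b K) : On b m ∧ (K : ℝ) ≤ sz m := by
  cases b with
  | true =>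
    have h1 : m ∈ Finset.Ico ((K : ℤ) + 5) (K + 5 + K / 4) := by simpa [VV] using h
    rw [Finset.mem_Ico] at h1
    have h2 : 0 ≤ m := by omega
    refine ⟨h2, ?_⟩
    rw [sz_nonneg_side h2]
    have : (K : ℤ) ≤ m := by omega
    exact_mod_cast this
  | false =>
    have h1 : m ∈ Finset.Ioc (-(K : ℤ) - 6 - K / 4) (-K - 6) := by simpa [VV] using h
    rw [Finset.mem_Ioc] at h1
    have h2 : m < 0 := by omega
    refine ⟨by simpa [On] using h2, ?_⟩
    rw [sz_neg_side h2]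
    have : (K : ℤ) ≤ -m - 1 := by omega
    exact_mod_cast this

theorem VV_btw {b : Bool} {K : ℕ} (hK : 384 ≤ K) {n : ℤ} (hb : On b n) (h1 : (K : ℝ) ≤ sz n)
    (h2 : sz n ≤ 2 * K + 5) : ∀ m ∈ VV b K, Btw n m := by
  intro m hm
  unfold Btw T
  cases b with
  | true =>
    have h3 : m ∈ Finset.Ico ((K : ℤ) + 5) (K + 5 + K / 4) := by simpa [VV] using hm
    rw [Finset.mem_Ico] at h3
    have h4 : 0 ≤ n := hb
    rw [sz_nonneg_side h4] at h1 h2
    have h5 : (K : ℤ) ≤ n := by exact_mod_cast h1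
    have h6 : n ≤ 2 * K + 5 := by exact_mod_cast h2
    split_ifs <;> omega
  | false =>
    have h3 : m ∈ Finset.Ioc (-(K : ℤ) - 6 - K / 4) (-K - 6) := by simpa [VV] using hm
    rw [Finset.mem_Ioc] at h3
    have h4 : n < 0 := by simpa [On] using hb
    rw [sz_neg_side h4] at h1 h2
    have h5 : (K : ℤ) ≤ -n - 1 := by exact_mod_cast h1
    have h6 : -n - 1 ≤ 2 * K + 5 := by exact_mod_cast h2
    split_ifs <;> omega

end Pool.Agent.E8helper52.DL
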