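import Mathlib
import Pool.Agent.E8helper52.DL.Window

/-!
The measures of an invariant set in the unit intervals converge.
-/

set_option autoImplicit false

open Real Set Filter Topology MeasureTheory

namespace Pool.Agent.E8helper52.DL

open Pool.Agent.E8helper52.RL
open Pool.Agent.H723R2.LSW (F T F_int F_cont)

theorem er_le {s k : ℝ} (hs : Good s) (hk : 0 < k) (hks : k ≤ s) : er s ≤ k ^ (-(1 / 16) : ℝ) :=
  hs.h4.trans (Real.rpow_le_rpow_of_nonpos hk hks (by norm_num))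

section
variable {M : ℝ} (hM : BigAll M) {E : Set ℝ} (hE : MeasurableSet E) (hinv : F ⁻¹' E = E) {b : Bool}
  {K : ℕ} (hK : M ≤ K) {I : ℝ} (hI0 : 0 ≤ I)
  (hI : ∀ m, On b m → ((K : ℝ) - 4) / 2 ≤ sz m → I ≤ den E m)
include hM hE hinv hK hI0 hI

theorem window_lower {n : ℤ} (hb : On b n) (h1 : (K : ℝ) ≤ sz n) (h2 : sz n ≤ 2 * K + 5) :
    I + (∑ m ∈ VV b K, (den E m - I)) / (4 * K + 10) - (K : ℝ) ^ (-(1 / 16) : ℝ) ≤ den E n := by
  have hM0 := hM.h0
  have hKr : (384 : ℝ) ≤ K := hM0.trans hK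
  have hKn : 384 ≤ K := by exact_mod_cast hKr
  have hbig : Good (sz n) := hM.h1 _ (hK.trans h1)
  set g : ℤ → ℝ := fun m => max 0 (den E m - I) with hg
  have hg0 : ∀ m, 0 ≤ g m := fun m => le_max_left _ _
  have hg1 : ∀ m, g m ≤ 1 := fun m => max_le zero_le_one (by
    have := den_le_one E m
    linarith)
  have hge : ∀ m, On b m → ((K : ℝ) - 4) / 2 ≤ sz m → g m = den E m - I := fun m h h' =>
    max_eq_right (by linarith [hI m h h'])
  have s1 := low_step (n := n) (g := den E) (c := 1) hE hinv (by linarith) hbig.h2 (den_nonneg E) (den_le_one E) zero_le_one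
    (fun m _ => by rw [one_mul])
  rw [one_mul] at s1
  have s2 : av (den E) n = I + av g n := by
    unfold av
    have e : ∫ x in Ioo (n : ℝ) (n + 1), den E ⌊F x⌋ =
        ∫ x in Ioo (n : ℝ) (n + 1), (I + g ⌊F x⌋) := by
      apply setIntegral_congr_fun measurableSet_Ioo
      intro x hx
      have h3 := on_image hb (by linarith) hx.1.le hx.2.le
      have h4 := (floor_size (y₀ := ((K : ℝ) - 4) / 2) (by linarith) (by linarith) hx.1.le hx.2.le).1
      simp only
      rw [hge _ h3 h4]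
      ring
    rw [e, integral_add]
    · simp
    · exact integrableOn_const (by rw [Real.volume_Ioo]; exact ENNReal.ofReal_ne_top)
    · exact g_int (g := g) (B := 1) (fun m => by rw [abs_of_nonneg (hg0 m)]; exact hg1 m) n
  have s3 := av_lower (n := n) (by linarith) hg0 hg1 (VV b K) (VV_btw hKn hb h1 h2)
  have s4 : ∑ m ∈ VV b K, g m = ∑ m ∈ VV b K, (den E m - I) := by
    apply Finset.sum_congr rfl
    intro m hm
    obtain ⟨h3, h4⟩ := VV_mem hm
    exact hge m h3 (by linarith)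
  have s5 : 0 ≤ ∑ m ∈ VV b K, g m := Finset.sum_nonneg fun m _ => hg0 m
  have s6 : (∑ m ∈ VV b K, g m) / (4 * K + 10) ≤ (∑ m ∈ VV b K, g m) / (2 * sz n) := by
    apply div_le_div_of_nonneg_left s5 (by linarith) (by linarith)
  have s7 := er_le (k := K) hbig (by linarith) h1
  rw [← s4]
  linarith

theorem far_lower {n : ℤ} (hb : On b n) (h1 : (K : ℝ) ≤ sz n) :
    I + (∑ m ∈ VV b K, (den E m - I)) / (4 * K + 10) - 2 * (K : ℝ) ^ (-(1 / 16) : ℝ) ≤ den E n := by
  have hM0 := hM.h0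
  have hKr : (384 : ℝ) ≤ K := hM0.trans hK
  set r := (K : ℝ) ^ (-(1 / 16) : ℝ) with hr
  have hcK : 0 < r := Real.rpow_pos_of_pos (by linarith) _
  set c := I + (∑ m ∈ VV b K, (den E m - I)) / (4 * K + 10) - r with hc
  have hw : ∀ n : ℤ, On b n → (K : ℝ) ≤ sz n → sz n ≤ 2 * K + 5 → c ≤ den E n := fun n hn h h' =>
    window_lower hM hE hinv hK hI0 hI hn h h'
  rcases le_or_gt 0 c with h0 | h0
  · have h3 := barrier hM hE hinv hK h0 hw hb h1
    have hc1 : c ≤ 1 := by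
      obtain ⟨n₀, h4, h5, h6⟩ : ∃ n₀ : ℤ, On b n₀ ∧ (K : ℝ) ≤ sz n₀ ∧ sz n₀ ≤ 2 * K + 5 := by
        cases b with
        | true =>
          refine ⟨K, ?_, ?_, ?_⟩
          · show (0 : ℤ) ≤ K
            omega
          · rw [sz_nonneg_side (by omega)]; simp
          · rw [sz_nonneg_side (by omega)]; push_cast; linarith
        | false =>
          refine ⟨-K - 1, ?_, ?_, ?_⟩
          · simp only [On, Bool.false_eq_true, if_false]
            omega
          · rw [sz_neg_side (by omega)]; push_cast; linarith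
          · rw [sz_neg_side (by omega)]; push_cast; linarith
      exact (hw n₀ h4 h5 h6).trans (den_le_one E n₀)
    have h7 : c - r ≤ c * (1 - r) := by nlinarith
    linarith
  · have := den_nonneg E n
    linarith

end

/-- the contraction of the oscillation -/
theorem contraction {M : ℝ} (hM : BigAll M) {E : Set ℝ} (hE : MeasurableSet E) (hinv : F ⁻¹' E = E)
    {b : Bool} {Y : ℕ} (hY : M ≤ Y) {D : ℝ}
    (hD : ∀ n n' : ℤ, On b n → On b n' → (Y : ℝ) ≤ sz n → (Y : ℝ) ≤ sz n' → den E n' - den E n ≤ D)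
    {n n' : ℤ} (hn : On b n) (hn' : On b n') (h1 : ((2 * Y + 4 : ℕ) : ℝ) ≤ sz n)
    (h2 : ((2 * Y + 4 : ℕ) : ℝ) ≤ sz n') :
    den E n' - den E n ≤ 19 / 20 * D + 4 * ((2 * Y + 4 : ℕ) : ℝ) ^ (-(1 / 16) : ℝ) := by
  set K : ℕ := 2 * Y + 4 with hKd
  have hKc : (K : ℝ) = 2 * Y + 4 := by rw [hKd]; push_cast; ring
  have hM0 := hM.h0
  have hK : M ≤ K := by rw [hKc]; linarith
  have hYK : ((K : ℝ) - 4) / 2 = Y := by rw [hKc]; ring
  set A : Set ℝ := {t | ∃ n : ℤ, On b n ∧ (Y : ℝ) ≤ sz n ∧ den E n = t} with hA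
  have hnA : den E n ∈ A := ⟨n, hn, by linarith, rfl⟩
  have hbb : BddBelow A := ⟨0, by rintro t ⟨m, -, -, rfl⟩; exact den_nonneg E m⟩
  have hba : BddAbove A := ⟨1, by rintro t ⟨m, -, -, rfl⟩; exact den_le_one E m⟩
  set I := sInf A with hI
  set S := sSup A with hS
  have hI0 : 0 ≤ I := le_csInf ⟨_, hnA⟩ (by rintro t ⟨m, -, -, rfl⟩; exact den_nonneg E m)
  have hS1 : S ≤ 1 := csSup_le ⟨_, hnA⟩ (by rintro t ⟨m, -, -, rfl⟩; exact den_le_one E m)
  have hIm : ∀ m, On b m → ((K : ℝ) - 4) / 2 ≤ sz m → I ≤ den E m := fun m hm h => by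
    rw [hYK] at h
    exact csInf_le hbb ⟨m, hm, h, rfl⟩
  have hSm : ∀ m, On b m → ((K : ℝ) - 4) / 2 ≤ sz m → 1 - S ≤ den Eᶜ m := fun m hm h => by
    rw [hYK] at h
    rw [den_compl hE]
    have := le_csSup hba ⟨m, hm, h, rfl⟩
    linarith
  have hSI : S - I ≤ D := by
    have : S ≤ I + D := by
      apply csSup_le ⟨_, hnA⟩
      rintro t ⟨m, hm, hms, rfl⟩
      have : den E m - D ≤ I := by
        apply le_csInf ⟨_, hnA⟩
        rintro t ⟨m', hm', hms', rfl⟩
        have := hD m' m hm' hm hms' hms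
        linarith
      linarith
    linarith
  have hIS : I ≤ S := (csInf_le hbb hnA).trans (le_csSup hba hnA)
  have a1 := far_lower hM hE hinv hK hI0 hIm hn h1
  have hinv' : F ⁻¹' Eᶜ = Eᶜ := by rw [preimage_compl, hinv]
  have a2 := far_lower hM hE.compl hinv' hK (by linarith : 0 ≤ 1 - S) hSm hn' h2
  rw [den_compl hE] at a2
  have e1 : (∑ m ∈ VV b K, (den E m - I)) / (4 * K + 10) +
      (∑ m ∈ VV b K, (den Eᶜ m - (1 - S))) / (4 * K + 10) =
      ((K / 4 : ℕ) : ℝ) * (S - I) / (4 * K + 10) := by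
    rw [← add_div, ← Finset.sum_add_distrib]
    congr 1
    rw [← VV_card b K, ← nsmul_eq_mul, ← Finset.sum_const]
    apply Finset.sum_congr rfl
    intro m _
    rw [den_compl hE]
    ring
  have hq : 1 / 20 * (S - I) ≤ ((K / 4 : ℕ) : ℝ) * (S - I) / (4 * K + 10) := by
    have hKpos : (0 : ℝ) < 4 * K + 10 := by positivity
    rw [le_div_iff₀ hKpos]
    have h4 : (K : ℝ) / 4 - 1 ≤ ((K / 4 : ℕ) : ℝ) := by
      have : K ≤ 4 * (K / 4) + 3 := by omega
      have : (K : ℝ) ≤ 4 * ((K / 4 : ℕ) : ℝ) + 3 := by exact_mod_cast this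
      linarith
    have h5 : 1 / 20 * (4 * (K : ℝ) + 10) ≤ ((K / 4 : ℕ) : ℝ) := by
      have : (384 : ℝ) ≤ K := hM0.trans hK
      linarith
    have h6 : 0 ≤ S - I := by linarith
    nlinarith
  linarith

/-- the levels -/
def lev (Y₀ : ℕ) : ℕ → ℕ
  | 0 => Y₀
  | k + 1 => 2 * lev Y₀ k + 4

theorem lev_eq (Y₀ k : ℕ) : lev Y₀ k + 4 = 2 ^ k * (Y₀ + 4) := by
  induction k with
  | zero => simp [lev]
  | succ k ih =>
    have : lev Y₀ (k + 1) + 4 = 2 * (lev Y₀ k + 4) := by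
      show 2 * lev Y₀ k + 4 + 4 = _
      ring
    rw [this, ih]
    ring

theorem lev_ge (Y₀ k : ℕ) : Y₀ ≤ lev Y₀ k ∧ 2 ^ k ≤ lev Y₀ k + 1 := by
  have h := lev_eq Y₀ k
  have h2 : 1 ≤ 2 ^ k := Nat.one_le_two_pow
  constructor <;> nlinarith

/-- the rate -/
noncomputable def th : ℝ := (2 : ℝ) ^ (-(1 / 20) : ℝ)

theorem th_pos : 0 < th := Real.rpow_pos_of_pos (by norm_num) _

theorem th_pow (k : ℕ) : th ^ k = (2 : ℝ) ^ (-(k / 20) : ℝ) := by
  unfold th
  rw [← Real.rpow_natCast, ← Real.rpow_mul (by norm_num)]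
  congr 1
  ring

theorem th_ge : 24 / 25 ≤ th := by
  by_contra hc
  push Not at hc
  have h1 : th ^ 20 < (24 / 25) ^ 20 := pow_lt_pow_left₀ hc th_pos.le (by norm_num)
  rw [th_pow] at h1
  norm_num at h1

theorem osc_rate {M : ℝ} (hM : BigAll M) {E : Set ℝ} (hE : MeasurableSet E) (hinv : F ⁻¹' E = E)
    {b : Bool} {Y₀ : ℕ} (hY : M ≤ Y₀) (k : ℕ) : ∀ n n' : ℤ, On b n → On b n' →
    (lev Y₀ k : ℝ) ≤ sz n → (lev Y₀ k : ℝ) ≤ sz n' → den E n' - den E n ≤ 400 * th ^ k := by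
  induction k with
  | zero =>
    intro n n' _ _ _ _
    have h1 := den_nonneg E n
    have h2 := den_le_one E n'
    norm_num
    linarith
  | succ k ih =>
    intro n n' hn hn' h1 h2
    have hlev := lev_ge Y₀ k
    have hYk : M ≤ lev Y₀ k := hY.trans (by exact_mod_cast hlev.1)
    have h5 := contraction hM hE hinv hYk ih hn hn' h1 h2
    refine h5.trans ?_
    have h6 : ((2 * lev Y₀ k + 4 : ℕ) : ℝ) ^ (-(1 / 16) : ℝ) ≤ th ^ k := by
      have h7 : (2 : ℝ) ^ k ≤ ((2 * lev Y₀ k + 4 : ℕ) : ℝ) := by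
        have : 2 ^ k ≤ 2 * lev Y₀ k + 4 := by omega
        exact_mod_cast this
      calc ((2 * lev Y₀ k + 4 : ℕ) : ℝ) ^ (-(1 / 16) : ℝ) ≤ ((2 : ℝ) ^ k) ^ (-(1 / 16) : ℝ) :=
            Real.rpow_le_rpow_of_nonpos (by positivity) h7 (by norm_num)
        _ = (2 : ℝ) ^ (-(k / 16) : ℝ) := by
            rw [← Real.rpow_natCast, ← Real.rpow_mul (by norm_num)]
            congr 1
            ring
        _ ≤ th ^ k := by
            rw [th_pow]
            apply Real.rpow_le_rpow_of_exponent_le (by norm_num)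
            have : (0 : ℝ) ≤ k := Nat.cast_nonneg k
            linarith
    have h7 := th_ge
    have h8 : 0 < th ^ k := pow_pos th_pos k
    rw [pow_succ]
    nlinarith

/-- the unit intervals of one side -/
def un (b : Bool) (j : ℕ) : ℤ := if b then (j : ℤ) else -(j : ℤ) - 1

theorem un_on (b : Bool) (j : ℕ) : On b (un b j) := by
  cases b with
  | true => show (0 : ℤ) ≤ (j : ℤ); omega
  | false => simp only [On, un, Bool.false_eq_true, if_false]; omega

theorem un_sz (b : Bool) (j : ℕ) : sz (un b j) = j := by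
  cases b with
  | true =>
    show sz (j : ℤ) = j
    rw [sz_nonneg_side (by omega)]; simp
  | false =>
    have : un false j = -(j : ℤ) - 1 := by simp [un]
    rw [this, sz_neg_side (by omega)]; push_cast; ring

/-- the limit with a rate -/
theorem limit_rate : ∃ C : ℝ, 0 < C ∧ ∀ E : Set ℝ, MeasurableSet E → F ⁻¹' E = E → ∀ b : Bool,
    ∃ β : ℝ, ∀ n : ℤ, On b n → 1 ≤ sz n → |den E n - β| ≤ C * (sz n) ^ (-(1 / 20) : ℝ) := by
  obtain ⟨M, hM⟩ := exists_good
  have hM0 := hM.h0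
  obtain ⟨Y₀, hY⟩ := exists_nat_ge M
  have hY384 : (384 : ℝ) ≤ Y₀ := hM0.trans hY
  refine ⟨800 * ((Y₀ : ℝ) + 4), by positivity, fun E hE hinv b => ?_⟩
  have hosc := fun k => osc_rate (b := b) hM hE hinv hY k
  have habs : ∀ k : ℕ, ∀ n n' : ℤ, On b n → On b n' →
      (lev Y₀ k : ℝ) ≤ sz n → (lev Y₀ k : ℝ) ≤ sz n' → |den E n - den E n'| ≤ 400 * th ^ k := by
    intro k n n' h1 h2 h3 h4
    rw [abs_le]
    have a := hosc k n n' h1 h2 h3 h4
    have b := hosc k n' n h2 h1 h4 h3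
    constructor <;> linarith
  have hcau : CauchySeq fun j : ℕ => den E (un b j) := by
    rw [Metric.cauchySeq_iff']
    intro ε hε
    have hth1 : th < 1 := by
      unfold th
      exact Real.rpow_lt_one_of_one_lt_of_neg (by norm_num) (by norm_num)
    obtain ⟨k, hk⟩ := exists_pow_lt_of_lt_one (show 0 < ε / 400 by positivity) hth1
    refine ⟨lev Y₀ k, fun j hj => ?_⟩
    rw [Real.dist_eq]
    refine (habs k _ _ (un_on b j) (un_on b _) ?_ ?_).trans_lt ?_
    · rw [un_sz]; exact_mod_cast hj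
    · rw [un_sz]
    · rw [lt_div_iff₀ (by norm_num)] at hk
      linarith
  obtain ⟨β, hβ⟩ := cauchySeq_tendsto_of_complete hcau
  have hβ0 : 0 ≤ β := ge_of_tendsto' hβ fun j => den_nonneg E _
  have hβ1 : β ≤ 1 := le_of_tendsto' hβ fun j => den_le_one E _
  have hlim : ∀ k : ℕ, ∀ n : ℤ, On b n → (lev Y₀ k : ℝ) ≤ sz n → |den E n - β| ≤ 400 * th ^ k := by
    intro k n hn hk
    have h1 : Tendsto (fun j : ℕ => |den E n - den E (un b j)|) atTop (𝓝 |den E n - β|) :=
      (tendsto_const_nhds.sub hβ).abs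
    refine le_of_tendsto h1 ?_
    filter_upwards [eventually_ge_atTop (lev Y₀ k)] with j hj
    refine habs k _ _ hn (un_on b j) hk ?_
    rw [un_sz]
    exact_mod_cast hj
  refine ⟨β, fun n hn h1 => ?_⟩
  have hs0 : 0 < sz n := by linarith
  have hp : 0 < (sz n) ^ (-(1 / 20) : ℝ) := Real.rpow_pos_of_pos hs0 _
  have hinvp : (sz n) ^ (-(1 / 20) : ℝ) * (sz n) ^ (1 / 20 : ℝ) = 1 := by
    rw [← Real.rpow_add hs0]
    norm_num
  rcases lt_or_ge (sz n) Y₀ with h | h
  · have h3 : |den E n - β| ≤ 1 := by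
      rw [abs_le]
      have := den_nonneg E n
      have := den_le_one E n
      constructor <;> linarith
    have h4 : (sz n) ^ (1 / 20 : ℝ) ≤ (Y₀ : ℝ) + 4 := by
      calc (sz n) ^ (1 / 20 : ℝ) ≤ (sz n) ^ (1 : ℝ) :=
            Real.rpow_le_rpow_of_exponent_le h1 (by norm_num)
        _ = sz n := Real.rpow_one _
        _ ≤ _ := by linarith
    have h5 : 1 ≤ (sz n) ^ (-(1 / 20) : ℝ) * ((Y₀ : ℝ) + 4) := by
      have := mul_le_mul_of_nonneg_left h4 hp.le
      linarith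
    nlinarith
  · obtain ⟨k, hk1, hk2⟩ := exists_nat_pow_near (x := (sz n + 4) / ((Y₀ : ℝ) + 4)) (y := 2)
      (by rw [le_div_iff₀ (by positivity)]; linarith) (by norm_num)
    rw [le_div_iff₀ (by positivity)] at hk1
    rw [div_lt_iff₀ (by positivity)] at hk2
    have h3 : (lev Y₀ k : ℝ) ≤ sz n := by
      have h4 : ((lev Y₀ k + 4 : ℕ) : ℝ) = ((2 ^ k * (Y₀ + 4) : ℕ) : ℝ) := by
        rw [lev_eq]
      push_cast at h4
      linarith
    have h4 := hlim k n hn h3
    refine h4.trans ?_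
    have h5 : th ^ (k + 1) ≤ ((Y₀ : ℝ) + 4) * (sz n) ^ (-(1 / 20) : ℝ) := by
      have h6 : sz n / ((Y₀ : ℝ) + 4) ≤ 2 ^ (k + 1) := by
        rw [div_le_iff₀ (by positivity)]
        linarith
      have h7 : ((2 : ℝ) ^ (k + 1)) ^ (-(1 / 20) : ℝ) ≤
          (sz n / ((Y₀ : ℝ) + 4)) ^ (-(1 / 20) : ℝ) :=
        Real.rpow_le_rpow_of_nonpos (by positivity) h6 (by norm_num)
      have h8 : ((2 : ℝ) ^ (k + 1)) ^ (-(1 / 20) : ℝ) = th ^ (k + 1) := by
        rw [th_pow, ← Real.rpow_natCast, ← Real.rpow_mul (by norm_num)]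
        congr 1
        push_cast
        ring
      rw [h8] at h7
      refine h7.trans ?_
      rw [Real.div_rpow hs0.le (by positivity), Real.rpow_neg (by positivity : (0 : ℝ) ≤ Y₀ + 4),
        div_inv_eq_mul, mul_comm]
      apply mul_le_mul_of_nonneg_right _ hp.le
      calc ((Y₀ : ℝ) + 4) ^ (1 / 20 : ℝ) ≤ ((Y₀ : ℝ) + 4) ^ (1 : ℝ) :=
            Real.rpow_le_rpow_of_exponent_le (by linarith) (by norm_num)
        _ = _ := Real.rpow_one _
    have h9 : th ^ k ≤ 2 * th ^ (k + 1) := by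
      rw [pow_succ]
      have h7 := th_ge
      have h8 : 0 < th ^ k := pow_pos th_pos k
      nlinarith
    nlinarith

end Pool.Agent.E8helper52.DL
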