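import Mathlib
import Pool.Agent.E8helper52.DL.Limit
import Pool.Agent.E8helper52.RL.AE

/-!
The iterates of `F` map every far unit interval over every unit interval of its side, hence the
limiting density of an invariant set of positive measure is positive.
-/

set_option autoImplicit false

open Real Set Filter Topology MeasureTheory

namespace Pool.Agent.E8helper52.DL

open Pool.Agent.E8helper52.RL
open Pool.Agent.H723R2.LSW (F T F_int F_cont)

/-- some iterate maps the unit interval at `n` over the unit interval at `m` -/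
def Reach (n m : ℤ) : Prop := ∃ k : ℕ, Icc (m : ℝ) (m + 1) ⊆ F^[k] '' Icc (n : ℝ) (n + 1)

theorem reach_refl (n : ℤ) : Reach n n := ⟨0, by simp⟩

theorem reach_trans {n m l : ℤ} (h1 : Reach n m) (h2 : Reach m l) : Reach n l := by
  obtain ⟨k, hk⟩ := h1
  obtain ⟨j, hj⟩ := h2
  refine ⟨j + k, ?_⟩
  rw [Function.iterate_add, image_comp]
  exact hj.trans (image_mono hk)

theorem reach_btw {n m : ℤ} (h : Btw n m) : Reach n m := by
  refine ⟨1, ?_⟩
  rw [Function.iterate_one]
  intro y hy
  have e0 : F n = T n := F_int n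
  have e1 : F ((n : ℝ) + 1) = T (n + 1) := by
    have := F_int (n + 1)
    push_cast at this
    exact this
  rcases h with ⟨h1, h2⟩ | ⟨h1, h2⟩
  · have g1 : F n ≤ m := by rw [e0]; exact_mod_cast h1
    have g2 : (m : ℝ) + 1 ≤ F (n + 1) := by rw [e1]; exact_mod_cast h2
    exact intermediate_value_Icc (by linarith : (n : ℝ) ≤ n + 1) (f := F)
      F_cont.continuousOn ⟨g1.trans hy.1, hy.2.trans g2⟩
  · have g1 : F (n + 1) ≤ m := by rw [e1]; exact_mod_cast h1
    have g2 : (m : ℝ) + 1 ≤ F n := by rw [e0]; exact_mod_cast h2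
    exact intermediate_value_Icc' (by linarith : (n : ℝ) ≤ n + 1) (f := F)
      F_cont.continuousOn ⟨g1.trans hy.1, hy.2.trans g2⟩

theorem pos_up {n : ℤ} (hn : 2 ≤ n) (j : ℕ) : Reach n (n + j) := by
  induction j with
  | zero => simpa using reach_refl n
  | succ j ih =>
    refine reach_trans ih (reach_btw ?_)
    unfold Btw T
    push_cast
    split_ifs <;> omega

theorem pos_down {n : ℤ} (j : ℕ) (hn : 1 ≤ n - j) : Reach n (n - j) := by
  induction j with
  | zero => simpa using reach_refl n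
  | succ j ih =>
    push_cast at hn
    refine reach_trans (ih (by omega)) (reach_btw ?_)
    unfold Btw T
    push_cast
    split_ifs <;> omega

theorem neg_down {n : ℤ} (hn : n ≤ -5) (j : ℕ) : Reach n (n - j) := by
  induction j with
  | zero => simpa using reach_refl n
  | succ j ih =>
    refine reach_trans ih (reach_btw ?_)
    unfold Btw T
    push_cast
    split_ifs <;> omega

theorem neg_up {n : ℤ} (j : ℕ) (hn : n + j ≤ -2) : Reach n (n + j) := by
  induction j with
  | zero => simpa using reach_refl n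
  | succ j ih =>
    push_cast at hn
    refine reach_trans (ih (by omega)) (reach_btw ?_)
    unfold Btw T
    push_cast
    split_ifs <;> omega

theorem pos_reach {n m : ℤ} (hn : 2 ≤ n) (hm : 1 ≤ m) : Reach n m := by
  rcases le_total n m with h | h
  · obtain ⟨j, rfl⟩ := Int.le.dest h
    exact pos_up hn j
  · obtain ⟨j, hj⟩ := Int.le.dest h
    have e : m = n - j := by omega
    rw [e]
    exact pos_down j (by omega)

theorem neg_reach {n m : ℤ} (hn : n ≤ -5) (hm : m ≤ -2) : Reach n m := by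
  rcases le_total n m with h | h
  · obtain ⟨j, rfl⟩ := Int.le.dest h
    exact neg_up j hm
  · obtain ⟨j, hj⟩ := Int.le.dest h
    have e : m = n - j := by omega
    rw [e]
    exact neg_down hn j

theorem iter_preimage {E : Set ℝ} (hinv : F ⁻¹' E = E) (k : ℕ) : F^[k] ⁻¹' E = E := by
  induction k with
  | zero => rfl
  | succ k ih => rw [Function.iterate_succ, preimage_comp, ih, hinv]

theorem F_diff : Differentiable ℝ F := fun x => (F_deriv x).differentiableAt

theorem den_pos_iff {E : Set ℝ} {n : ℤ} : 0 < den E n ↔ volume (E ∩ Icc (n : ℝ) (n + 1)) ≠ 0 := by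
  unfold den
  rw [ENNReal.toReal_pos_iff]
  constructor
  · exact fun h => h.1.ne'
  · exact fun h => ⟨pos_iff_ne_zero.2 h, lt_top_iff_ne_top.2 (vol_ne_top E n)⟩

theorem den_pos_of_reach {E : Set ℝ} (hinv : F ⁻¹' E = E) {n m : ℤ} (h : Reach n m)
    (hm : 0 < den E m) : 0 < den E n := by
  rw [den_pos_iff] at hm ⊢
  intro h0
  apply hm
  obtain ⟨k, hk⟩ := h
  have h1 : volume (F^[k] '' (E ∩ Icc (n : ℝ) (n + 1))) = 0 :=
    addHaar_image_eq_zero_of_differentiableOn_of_addHaar_eq_zero _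
      (F_diff.iterate k).differentiableOn h0
  refine measure_mono_null ?_ h1
  rintro y ⟨hyE, hy⟩
  obtain ⟨x, hx, rfl⟩ := hk hy
  refine ⟨x, ⟨?_, hx⟩, rfl⟩
  have : x ∈ F^[k] ⁻¹' E := hyE
  rwa [iter_preimage hinv k] at this

/-- the two half lines -/
def half (b : Bool) : Set ℝ := if b then Ici 1 else Iic (-1)

theorem den_pos {E : Set ℝ} (hinv : F ⁻¹' E = E) {b : Bool} (h : volume (E ∩ half b) ≠ 0) {n : ℤ}
    (hb : On b n) (hn : 4 ≤ sz n) : 0 < den E n := by
  cases b with
  | true =>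
    have hn0 : 0 ≤ n := hb
    rw [sz_nonneg_side hn0] at hn
    have hn2 : (4 : ℤ) ≤ n := by exact_mod_cast hn
    by_contra hc
    apply h
    have h1 : ∀ m : ℕ, volume (E ∩ Icc ((m + 1 : ℕ) : ℝ) ((m + 1 : ℕ) + 1)) = 0 := by
      intro m
      by_contra hne
      have h2 : 0 < den E ((m + 1 : ℕ) : ℤ) := by
        rw [den_pos_iff]
        simpa using hne
      exact hc (den_pos_of_reach hinv (pos_reach (by omega) (by omega)) h2)
    refine measure_mono_null (t := ⋃ m : ℕ, E ∩ Icc ((m + 1 : ℕ) : ℝ) ((m + 1 : ℕ) + 1)) ?_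
      (measure_iUnion_null h1)
    rintro x ⟨hxE, hx⟩
    have hx1 : (1 : ℝ) ≤ x := hx
    rw [mem_iUnion]
    have h3 : 1 ≤ ⌊x⌋₊ := by
      rw [Nat.one_le_floor_iff]; exact hx1
    obtain ⟨m, hm⟩ := Nat.exists_eq_add_of_le' h3
    refine ⟨m, hxE, ?_, ?_⟩
    · rw [← hm]; exact Nat.floor_le (by linarith)
    · rw [← hm]; exact (Nat.lt_floor_add_one x).le
  | false =>
    have hn0 : n < 0 := by simpa [On] using hb
    rw [sz_neg_side hn0] at hn
    have hn2 : (4 : ℤ) ≤ -n - 1 := by exact_mod_cast hn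
    by_contra hc
    apply h
    have h1 : ∀ m : ℕ, volume (E ∩ Icc (-((m + 1 : ℕ) : ℝ) - 1) (-((m + 1 : ℕ) : ℝ))) = 0 := by
      intro m
      by_contra hne
      have h2 : 0 < den E (-((m + 1 : ℕ) : ℤ) - 1) := by
        rw [den_pos_iff]
        push_cast at hne ⊢
        rwa [sub_add_cancel]
      exact hc (den_pos_of_reach hinv (neg_reach (by omega) (by push_cast; omega)) h2)
    refine measure_mono_null (t := ⋃ m : ℕ, E ∩ Icc (-((m + 1 : ℕ) : ℝ) - 1) (-((m + 1 : ℕ) : ℝ))) ?_
      (measure_iUnion_null h1)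
    rintro x ⟨hxE, hx⟩
    have hx1 : x ≤ -1 := by simpa [half] using hx
    rw [mem_iUnion]
    have h3 : 1 ≤ ⌊-x⌋₊ := by
      rw [Nat.one_le_floor_iff]; linarith
    obtain ⟨m, hm⟩ := Nat.exists_eq_add_of_le' h3
    refine ⟨m, hxE, ?_, ?_⟩
    · rw [← hm]
      have := (Nat.lt_floor_add_one (-x)).le
      linarith
    · rw [← hm]
      have := Nat.floor_le (a := -x) (by linarith)
      linarith

theorem on_un {b : Bool} {n : ℤ} (h : On b n) : ∃ j : ℕ, n = un b j := by
  cases b with
  | true =>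
    obtain ⟨j, rfl⟩ := Int.eq_ofNat_of_zero_le (show 0 ≤ n from h)
    exact ⟨j, rfl⟩
  | false =>
    have hn0 : n < 0 := by simpa [On] using h
    obtain ⟨j, hj⟩ := Int.eq_ofNat_of_zero_le (show 0 ≤ -n - 1 by omega)
    refine ⟨j, ?_⟩
    simp only [un, Bool.false_eq_true, if_false]
    omega

/-- the limiting density is positive when the set is not null -/
theorem limit_pos {E : Set ℝ} (hE : MeasurableSet E) (hinv : F ⁻¹' E = E) {b : Bool}
    (h : volume (E ∩ half b) ≠ 0) : ∃ c : ℝ, 0 < c ∧ ∃ K : ℕ, ∀ j : ℕ, K ≤ j → c ≤ den E (un b j) := by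
  obtain ⟨M, hM⟩ := exists_good
  have hM0 := hM.h0
  obtain ⟨K, hK⟩ := exists_nat_ge M
  have hK384 : (384 : ℝ) ≤ K := hM0.trans hK
  have hbig := hM.h1 K hK
  obtain ⟨j₀, hj₀m, hj₀⟩ := (Finset.Icc K (2 * K + 5)).exists_min_image
    (fun j => den E (un b j)) ⟨K, by rw [Finset.mem_Icc]; omega⟩
  have hj₀K : (384 : ℝ) ≤ j₀ := by
    rw [Finset.mem_Icc] at hj₀m
    refine hK384.trans ?_
    exact_mod_cast hj₀m.1
  set c := den E (un b j₀) with hc
  have hc0 : 0 < c := den_pos hinv h (un_on b j₀) (by rw [un_sz]; linarith)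
  refine ⟨c / 2, by linarith, K, fun j hj => ?_⟩
  have h1 := barrier hM hE hinv (b := b) hK hc0.le (by
    intro n hn h1 h2
    obtain ⟨i, rfl⟩ := on_un hn
    rw [un_sz] at h1 h2
    apply hj₀ i
    rw [Finset.mem_Icc]
    constructor
    · exact_mod_cast h1
    · exact_mod_cast h2) (un_on b j) (by rw [un_sz]; exact_mod_cast hj)
  refine le_trans ?_ h1
  have h2 := hbig.h5
  nlinarith

end Pool.Agent.E8helper52.DL
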