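import Mathlib
import Pool.Agent.E8helper52.DL.Reach

/-!
The density law for invariant sets of real points, and the escaping set.
-/

set_option autoImplicit false

open Real Set Filter Topology MeasureTheory

namespace Pool.Agent.E8helper52.DL

open Pool.Agent.E8helper52.RL
open Pool.Agent.H384R2.Fatou
open Pool.Agent.H723R2.LSW

theorem rate_tendsto (C : ℝ) : Tendsto (fun j : ℕ => C * (j : ℝ) ^ (-(1 / 20) : ℝ)) atTop (𝓝 0) := by
  have h := (tendsto_rpow_neg_atTop (show (0 : ℝ) < 1 / 20 by norm_num)).comp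
    tendsto_natCast_atTop_atTop
  have h2 := h.const_mul C
  rw [mul_zero] at h2
  exact h2

/-- the limiting density -/
noncomputable def bt (b : Bool) (E : Set ℝ) : ℝ := limUnder atTop fun j : ℕ => den E (un b j)

theorem law : ∃ C : ℝ, 0 < C ∧ ∀ E : Set ℝ, MeasurableSet E → F ⁻¹' E = E → ∀ b : Bool,
    (∀ j : ℕ, 1 ≤ j → |den E (un b j) - bt b E| ≤ C * (j : ℝ) ^ (-(1 / 20) : ℝ)) ∧
      Tendsto (fun j : ℕ => den E (un b j)) atTop (𝓝 (bt b E)) := by
  obtain ⟨C, hC, h⟩ := limit_rate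
  refine ⟨C, hC, fun E hE hinv b => ?_⟩
  obtain ⟨β, hβ⟩ := h E hE hinv b
  have h1 : ∀ j : ℕ, 1 ≤ j → |den E (un b j) - β| ≤ C * (j : ℝ) ^ (-(1 / 20) : ℝ) := by
    intro j hj
    have h2 := hβ (un b j) (un_on b j) (by rw [un_sz]; exact_mod_cast hj)
    rwa [un_sz] at h2
  have hlim : Tendsto (fun j : ℕ => den E (un b j)) atTop (𝓝 β) := by
    rw [tendsto_iff_norm_sub_tendsto_zero]
    refine squeeze_zero' (Eventually.of_forall fun j => norm_nonneg _) ?_ (rate_tendsto C)
    filter_upwards [eventually_ge_atTop 1] with j hj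
    rw [Real.norm_eq_abs]
    exact h1 j hj
  have e : bt b E = β := hlim.limUnder_eq
  rw [e]
  exact ⟨h1, hlim⟩

theorem bt_nonneg {E : Set ℝ} (hE : MeasurableSet E) (hinv : F ⁻¹' E = E) (b : Bool) :
    0 ≤ bt b E := by
  obtain ⟨C, -, h⟩ := law
  exact ge_of_tendsto' (h E hE hinv b).2 fun j => den_nonneg E _

theorem bt_zero_iff {E : Set ℝ} (hE : MeasurableSet E) (hinv : F ⁻¹' E = E) (b : Bool) :
    bt b E = 0 ↔ volume (E ∩ half b) = 0 := by
  obtain ⟨C, -, h⟩ := law
  have hlim := (h E hE hinv b).2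
  constructor
  · intro h0
    by_contra hne
    obtain ⟨c, hc, K, hK⟩ := limit_pos hE hinv hne
    have : c ≤ bt b E := ge_of_tendsto hlim (by
      filter_upwards [eventually_ge_atTop K] with j hj
      exact hK j hj)
    linarith
  · intro h0
    refine tendsto_nhds_unique hlim ?_
    refine tendsto_const_nhds.congr' ?_
    filter_upwards [eventually_ge_atTop 1] with j hj
    have hj' : (1 : ℝ) ≤ j := by exact_mod_cast hj
    symm
    unfold den
    have h2 : volume (E ∩ Icc ((un b j : ℤ) : ℝ) ((un b j : ℤ) + 1)) = 0 := by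
      refine measure_mono_null (inter_subset_inter_right E ?_) h0
      cases b with
      | true =>
        intro x hx
        have h3 : ((j : ℤ) : ℝ) ≤ x := hx.1
        show (1 : ℝ) ≤ x
        push_cast at h3
        linarith
      | false =>
        intro x hx
        have h3 : x ≤ ((-(j : ℤ) - 1 : ℤ) : ℝ) + 1 := by simpa [un] using hx.2
        have : x ≤ -1 := by
          push_cast at h3
          linarith
        simpa [half] using this
    rw [h2]
    rfl

theorem bt_univ (b : Bool) : bt b univ = 1 := by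
  obtain ⟨C, -, h⟩ := law
  have hlim := (h univ MeasurableSet.univ preimage_univ b).2
  refine tendsto_nhds_unique hlim ?_
  refine tendsto_const_nhds.congr fun j => ?_
  unfold den
  rw [univ_inter, Real.volume_Icc, add_sub_cancel_left, ENNReal.ofReal_one, ENNReal.toReal_one]

section
variable {E : ℕ → Set ℝ} (hE : ∀ i, MeasurableSet (E i))
  (hdis : Pairwise (Function.onFun Disjoint E))
include hE hdis

theorem den_hasSum (n : ℤ) : HasSum (fun i => den (E i) n) (den (⋃ i, E i) n) := by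
  have h1 : volume ((⋃ i, E i) ∩ Icc (n : ℝ) (n + 1)) =
      ∑' i, volume (E i ∩ Icc (n : ℝ) (n + 1)) := by
    rw [iUnion_inter, measure_iUnion]
    · intro i j hij
      exact (hdis hij).mono inter_subset_left inter_subset_left
    · exact fun i => (hE i).inter measurableSet_Icc
  have h2 : ∑' i, volume (E i ∩ Icc (n : ℝ) (n + 1)) ≠ ⊤ := by
    rw [← h1]; exact vol_ne_top _ n
  have h3 := ENNReal.hasSum_toReal h2
  have h4 : den (⋃ i, E i) n = ∑' i, (volume (E i ∩ Icc (n : ℝ) (n + 1))).toReal := by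
    unfold den
    rw [h1]
    exact ENNReal.tsum_toReal_eq fun i => vol_ne_top _ n
  rw [h4]
  exact h3

theorem den_finite (s : Finset ℕ) (n : ℤ) : den (⋃ i ∈ s, E i) n = ∑ i ∈ s, den (E i) n := by
  unfold den
  rw [iUnion₂_inter, measure_biUnion_finset, ENNReal.toReal_sum]
  · exact fun i _ => vol_ne_top _ n
  · intro i _ j _ hij
    exact (hdis hij).mono inter_subset_left inter_subset_left
  · exact fun i _ => (hE i).inter measurableSet_Icc

theorem bt_hasSum (hinv : ∀ i, F ⁻¹' (E i) = E i) (b : Bool) :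
    HasSum (fun i => bt b (E i)) (bt b (⋃ i, E i)) := by
  obtain ⟨C, hC, h⟩ := law
  have hU : F ⁻¹' (⋃ i, E i) = ⋃ i, E i := by
    rw [preimage_iUnion]
    exact iUnion_congr hinv
  have hf : ∀ s : Finset ℕ, F ⁻¹' (⋃ i ∈ s, E i) = ⋃ i ∈ s, E i := by
    intro s
    rw [preimage_iUnion₂]
    exact iUnion₂_congr fun i _ => hinv i
  have hfm : ∀ s : Finset ℕ, MeasurableSet (⋃ i ∈ s, E i) := fun s =>
    Finset.measurableSet_biUnion s fun i _ => hE i
  have hbf : ∀ s : Finset ℕ, bt b (⋃ i ∈ s, E i) = ∑ i ∈ s, bt b (E i) := by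
    intro s
    refine tendsto_nhds_unique (h _ (hfm s) (hf s) b).2 ?_
    have h1 : Tendsto (fun j : ℕ => ∑ i ∈ s, den (E i) (un b j)) atTop
        (𝓝 (∑ i ∈ s, bt b (E i))) := tendsto_finsetSum s fun i _ => (h _ (hE i) (hinv i) b).2
    refine h1.congr fun j => ?_
    rw [den_finite hE hdis]
  rw [hasSum_iff_tendsto_nat_of_nonneg fun i => bt_nonneg (hE i) (hinv i) b]
  rw [Metric.tendsto_atTop]
  intro ε hε
  obtain ⟨j, hj1, hj2⟩ : ∃ j : ℕ, 1 ≤ j ∧ C * (j : ℝ) ^ (-(1 / 20) : ℝ) < ε / 3 :=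
    ((eventually_ge_atTop 1).and ((rate_tendsto C).eventually_lt_const
      (show (0 : ℝ) < ε / 3 by linarith))).exists
  have h1 := (den_hasSum hE hdis (un b j)).tendsto_sum_nat
  obtain ⟨N, hN⟩ := (Metric.tendsto_atTop.1 h1) (ε / 3) (by linarith)
  refine ⟨N, fun k hk => ?_⟩
  have h2 := hN k hk
  have h3 := (h _ (hfm (Finset.range k)) (hf _) b).1 j hj1
  rw [hbf, den_finite hE hdis] at h3
  have h4 := (h _ (MeasurableSet.iUnion hE) hU b).1 j hj1
  rw [Real.dist_eq] at h2 ⊢
  rw [abs_lt] at h2 ⊢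
  rw [abs_le] at h3 h4
  constructor <;> linarith [h2.1, h2.2, h3.1, h3.2, h4.1, h4.2]

end

/-- the real points whose orbit enters the component of a point of the orbit of `m` -/
def Joins (m : ℤ) : Set ℝ := {x : ℝ | ∃ k j : ℕ,
  f₀^[k] (x : ℂ) ∈ FatouComponent f₀ ((T^[j] m : ℤ) : ℂ)}

theorem joins_meas (m : ℤ) : MeasurableSet (Joins m) := by
  have e : Joins m = ⋃ k : ℕ, ⋃ j : ℕ, {x : ℝ | f₀^[k] (x : ℂ) ∈
      FatouComponent f₀ ((T^[j] m : ℤ) : ℂ)} := by
    ext x
    simp [Joins]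
  rw [e]
  apply MeasurableSet.iUnion
  intro k
  apply MeasurableSet.iUnion
  intro j
  apply IsOpen.measurableSet
  exact (component_isOpen f₀ _).preimage ((f₀_cont.iterate k).comp Complex.continuous_ofReal)

theorem joins_inv (m : ℤ) : F ⁻¹' Joins m = Joins m := by
  ext x
  constructor
  · rintro ⟨k, j, h⟩
    rw [F_coe, ← Function.iterate_succ_apply] at h
    exact ⟨k + 1, j, h⟩
  · rintro ⟨k, j, h⟩
    cases k with
    | zero =>
      refine ⟨0, j + 1, ?_⟩
      have h1 := component_map f₀_cont f₀_open (int_mem_fatou (T^[j] m)) 1 ⟨_, h, rfl⟩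
      simp only [Function.iterate_one, Function.iterate_zero, id_eq] at h1 ⊢
      rw [F_coe, Function.iterate_succ_apply']
      rwa [f₀_int] at h1
    | succ k =>
      refine ⟨k, j, ?_⟩
      rwa [F_coe, ← Function.iterate_succ_apply]

theorem joins_pos {m : ℤ} {b : Bool} (hm : if b then 1 ≤ m else m ≤ -1) : 0 < bt b (Joins m) := by
  have h0 := bt_nonneg (joins_meas m) (joins_inv m) b
  refine lt_of_le_of_ne h0 fun h => ?_
  have h1 := (bt_zero_iff (joins_meas m) (joins_inv m) b).1 h.symm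
  have ho : IsOpen {x : ℝ | (x : ℂ) ∈ FatouComponent f₀ (m : ℂ)} :=
    (component_isOpen f₀ (m : ℂ)).preimage Complex.continuous_ofReal
  have hmem : (m : ℝ) ∈ {x : ℝ | (x : ℂ) ∈ FatouComponent f₀ (m : ℂ)} := by
    have h : (m : ℂ) ∈ FatouComponent f₀ (m : ℂ) := mem_connectedComponentIn (int_mem_fatou m)
    simpa using h
  obtain ⟨ε, hε, hball⟩ := Metric.isOpen_iff.1 ho _ hmem
  have hsub : Metric.ball (m : ℝ) ε ⊆ Joins m := fun x hx => ⟨0, 0, hball hx⟩
  cases b with
  | true =>
    have hm1 : (1 : ℤ) ≤ m := by simpa using hm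
    have hm1' : (1 : ℝ) ≤ m := by exact_mod_cast hm1
    have h2 : Ioo (m : ℝ) (m + ε) ⊆ Joins m ∩ half true := by
      intro x hx
      refine ⟨hsub ?_, ?_⟩
      · rw [Metric.mem_ball, Real.dist_eq, abs_lt]
        constructor <;> linarith [hx.1, hx.2]
      · show (1 : ℝ) ≤ x
        linarith [hx.1]
    have h3 := measure_mono_null h2 h1
    rw [Real.volume_Ioo, ENNReal.ofReal_eq_zero] at h3
    linarith
  | false =>
    have hm1 : m ≤ -1 := by simpa using hm
    have hm1' : (m : ℝ) ≤ -1 := by exact_mod_cast hm1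
    have h2 : Ioo ((m : ℝ) - ε) m ⊆ Joins m ∩ half false := by
      intro x hx
      refine ⟨hsub ?_, ?_⟩
      · rw [Metric.mem_ball, Real.dist_eq, abs_lt]
        constructor <;> linarith [hx.1, hx.2]
      · have : x ≤ -1 := by linarith [hx.2]
        simpa [half] using this
    have h3 := measure_mono_null h2 h1
    rw [Real.volume_Ioo, ENNReal.ofReal_eq_zero] at h3
    linarith

theorem F_range {n : ℤ} (hn : nz n) {x : ℝ} (h1 : (n : ℝ) ≤ x) (h2 : x ≤ n + 1) :
    ((min (T n) (T (n + 1)) : ℤ) : ℝ) ≤ F x ∧ F x ≤ ((max (T n) (T (n + 1)) : ℤ) : ℝ) := by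
  have e0 : F n = T n := F_int n
  have e1 : F ((n : ℝ) + 1) = T (n + 1) := by
    have := F_int (n + 1)
    push_cast at this
    exact this
  have m0 : (n : ℝ) ∈ Icc (n : ℝ) (n + 1) := ⟨le_rfl, by linarith⟩
  have m1 : (n : ℝ) + 1 ∈ Icc (n : ℝ) (n + 1) := ⟨by linarith, le_rfl⟩
  have mx : x ∈ Icc (n : ℝ) (n + 1) := ⟨h1, h2⟩
  push_cast
  rcases F_strict hn with hF | hF
  · have a := hF.monotoneOn m0 mx h1
    have b := hF.monotoneOn mx m1 h2
    rw [e0] at a
    rw [e1] at b
    exact ⟨(min_le_left _ _).trans a, b.trans (le_max_right _ _)⟩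
  · have a := hF.antitoneOn m0 mx h1
    have b := hF.antitoneOn mx m1 h2
    rw [e0] at a
    rw [e1] at b
    exact ⟨(min_le_right _ _).trans b, a.trans (le_max_left _ _)⟩

theorem F_nonneg {x : ℝ} (h : 0 ≤ x) : 0 ≤ F x := by
  have hn : (0 : ℤ) ≤ ⌊x⌋ := Int.floor_nonneg.2 h
  obtain ⟨a, -⟩ := F_range (n := ⌊x⌋) (Or.inl hn) (Int.floor_le x) (Int.lt_floor_add_one x).le
  refine le_trans ?_ a
  have : (0 : ℤ) ≤ min (T ⌊x⌋) (T (⌊x⌋ + 1)) := by
    apply le_min
    · unfold T; split_ifs <;> omega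
    · unfold T; split_ifs <;> omega
  exact_mod_cast this

theorem F_le_two {x : ℝ} (h : x ≤ 2) : F x ≤ 2 := by
  rcases h.eq_or_lt with rfl | hlt
  · have h1 := F_int 2
    have h2 : T 2 = 1 := by unfold T; norm_num
    rw [h2] at h1
    push_cast at h1
    rw [h1]
    norm_num
  · have hfl : ⌊x⌋ ≤ 1 := by
      have : ⌊x⌋ < 2 := by
        rw [Int.floor_lt]; exact_mod_cast hlt
      omega
    by_cases hn : nz ⌊x⌋
    · obtain ⟨-, a⟩ := F_range hn (Int.floor_le x) (Int.lt_floor_add_one x).le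
      refine a.trans ?_
      have : max (T ⌊x⌋) (T (⌊x⌋ + 1)) ≤ 2 := by
        apply max_le
        · unfold T; split_ifs <;> omega
        · unfold T; split_ifs <;> omega
      exact_mod_cast this
    · unfold nz at hn
      push Not at hn
      have h3 : ⌊x⌋ ≤ -1 := by omega
      have h4 : x < 0 := by
        have h5 := Int.lt_floor_add_one x
        have h6 : ((⌊x⌋ : ℤ) : ℝ) ≤ -1 := by exact_mod_cast h3
        linarith
      have h5 := abs_le.1 (F_near x)
      obtain ⟨z1, z2⟩ := ze_bounds x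
      nlinarith [h5.2]

/-- the escaping real points -/
def Esc : Set ℝ := {x : ℝ | Tendsto (fun k : ℕ => ‖f₀^[k] (x : ℂ)‖) atTop atTop}

theorem norm_iter (k : ℕ) (x : ℝ) : ‖f₀^[k] (x : ℂ)‖ = |F^[k] x| := by
  rw [← F_iter_coe, Complex.norm_real, Real.norm_eq_abs]

theorem esc_meas : MeasurableSet Esc := by
  unfold Esc
  simp only [norm_iter]
  apply measurableSet_tendsto
  intro k
  exact ((F_cont.iterate k).abs).measurable

theorem esc_inv : F ⁻¹' Esc = Esc := by
  ext x
  show Tendsto (fun k : ℕ => ‖f₀^[k] ((F x : ℝ) : ℂ)‖) atTop atTop ↔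
    Tendsto (fun k : ℕ => ‖f₀^[k] (x : ℂ)‖) atTop atTop
  rw [F_coe, ← tendsto_add_atTop_iff_nat (f := fun k : ℕ => ‖f₀^[k] (x : ℂ)‖) 1]
  simp only [Function.iterate_succ_apply]

theorem esc_iff (b : Bool) : (∃ m : ℤ, (if b then 1 ≤ m else m ≤ -1) ∧
    IsWanderingDomain f₀ (FatouComponent f₀ (m : ℂ))) ↔ volume (Esc ∩ half b) ≠ 0 := by
  constructor
  · rintro ⟨m, hm, hw⟩
    have hwild := (wandering_iff m).1 hw
    have ho : IsOpen {x : ℝ | (x : ℂ) ∈ FatouComponent f₀ (m : ℂ)} :=
      (component_isOpen f₀ (m : ℂ)).preimage Complex.continuous_ofReal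
    have hmem : (m : ℝ) ∈ {x : ℝ | (x : ℂ) ∈ FatouComponent f₀ (m : ℂ)} := by
      have h : (m : ℂ) ∈ FatouComponent f₀ (m : ℂ) := mem_connectedComponentIn (int_mem_fatou m)
      simpa using h
    obtain ⟨ε, hε, hball⟩ := Metric.isOpen_iff.1 ho _ hmem
    have hsub : Metric.ball (m : ℝ) ε ⊆ Esc := fun x hx => wild_escape hwild (hball hx)
    cases b with
    | true =>
      have hm1 : (1 : ℤ) ≤ m := by simpa using hm
      have hm1' : (1 : ℝ) ≤ m := by exact_mod_cast hm1
      have h1 : Ioo (m : ℝ) (m + ε) ⊆ Esc ∩ half true := by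
        intro x hx
        refine ⟨hsub ?_, ?_⟩
        · rw [Metric.mem_ball, Real.dist_eq, abs_lt]
          constructor <;> linarith [hx.1, hx.2]
        · show (1 : ℝ) ≤ x
          linarith [hx.1]
      intro h0
      have h2 := measure_mono_null h1 h0
      rw [Real.volume_Ioo, ENNReal.ofReal_eq_zero] at h2
      linarith
    | false =>
      have hm1 : m ≤ -1 := by simpa using hm
      have hm1' : (m : ℝ) ≤ -1 := by exact_mod_cast hm1
      have h1 : Ioo ((m : ℝ) - ε) m ⊆ Esc ∩ half false := by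
        intro x hx
        refine ⟨hsub ?_, ?_⟩
        · rw [Metric.mem_ball, Real.dist_eq, abs_lt]
          constructor <;> linarith [hx.1, hx.2]
        · have : x ≤ -1 := by linarith [hx.2]
          simpa [half] using this
      intro h0
      have h2 := measure_mono_null h1 h0
      rw [Real.volume_Ioo, ENNReal.ofReal_eq_zero] at h2
      linarith
  · intro hne
    obtain ⟨x, hxE, hxP⟩ : ∃ x ∈ Esc ∩ half b, ∃ (n : ℤ) (k : ℕ),
        f₀^[k] (x : ℂ) ∈ FatouComponent f₀ (n : ℂ) ∧ ∃ q : ℝ, 0 ≤ q ∧ q < 1 ∧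
        ∀ᶠ j : ℕ in atTop, ‖f₀^[k + j] (x : ℂ) - ((T^[j] n : ℤ) : ℂ)‖ ≤ q ^ (2 ^ j) := by
      by_contra hc
      apply hne
      have h1 := ae_follow
      rw [ae_iff] at h1
      refine measure_mono_null ?_ h1
      intro x hx hx2
      exact hc ⟨x, hx, hx2⟩
    obtain ⟨n, k, -, q, hq0, hq1, hq⟩ := hxP
    have hesc : Tendsto (fun k : ℕ => ‖f₀^[k] (x : ℂ)‖) atTop atTop := hxE.1
    have hwild : Wild n := by
      by_contra hn
      obtain ⟨M, hM⟩ := tame_bound hn
      obtain ⟨R, hR⟩ := bounded_of_follow hq0 hq1 hq hM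
      obtain ⟨j, hj⟩ := (hesc.eventually_gt_atTop R).exists
      exact absurd (hR j) (not_le.2 hj)
    have hshift : Tendsto (fun j : ℕ => ‖f₀^[k + j] (x : ℂ)‖) atTop atTop := by
      have := hesc.comp (tendsto_add_atTop_nat k)
      refine this.congr fun j => ?_
      simp only [Function.comp_apply, add_comm]
    obtain ⟨j, hj1, hj2⟩ := (hq.and (hshift.eventually_ge_atTop 3)).exists
    rw [norm_iter] at hj2
    have hj3 : |F^[k + j] x - ((T^[j] n : ℤ) : ℝ)| ≤ 1 := by
      have h1 : ‖f₀^[k + j] (x : ℂ) - ((T^[j] n : ℤ) : ℂ)‖ =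
          |F^[k + j] x - ((T^[j] n : ℤ) : ℝ)| := by
        rw [← F_iter_coe, ← Complex.ofReal_intCast, ← Complex.ofReal_sub, Complex.norm_real,
          Real.norm_eq_abs]
      rw [← h1]
      exact hj1.trans (pow_le_one₀ hq0 hq1.le)
    have hj4 := abs_le.1 hj3
    refine ⟨T^[j] n, ?_, (wandering_iff _).2 (wild_iter hwild j)⟩
    cases b with
    | true =>
      have hx1 : (1 : ℝ) ≤ x := hxE.2
      have hnn : ∀ i : ℕ, 0 ≤ F^[i] x := by
        intro i
        induction i with
        | zero => simp only [Function.iterate_zero, id_eq]; linarith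
        | succ i ih => rw [Function.iterate_succ_apply']; exact F_nonneg ih
      rw [abs_of_nonneg (hnn _)] at hj2
      have h5 : (1 : ℝ) < ((T^[j] n : ℤ) : ℝ) := by linarith [hj4.2]
      have h6 : (1 : ℤ) < T^[j] n := by exact_mod_cast h5
      simp only [if_true]
      omega
    | false =>
      have hx1 : x ≤ -1 := by simpa [half] using hxE.2
      have hnn : ∀ i : ℕ, F^[i] x ≤ 2 := by
        intro i
        induction i with
        | zero => simp only [Function.iterate_zero, id_eq]; linarith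
        | succ i ih => rw [Function.iterate_succ_apply']; exact F_le_two ih
      have h4 := hnn (k + j)
      have h5 : F^[k + j] x ≤ -3 := by
        rcases abs_choice (F^[k + j] x) with h | h
        · rw [h] at hj2; linarith
        · rw [h] at hj2; linarith
      have h6 : ((T^[j] n : ℤ) : ℝ) < -1 := by linarith [hj4.1]
      have h7 : T^[j] n < -1 := by exact_mod_cast h6
      simp only [Bool.false_eq_true, if_false]
      omega

theorem joins_all (b : Bool) : bt b (⋃ m : ℤ, Joins m) = 1 := by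
  obtain ⟨C, -, h⟩ := law
  have hm : MeasurableSet (⋃ m : ℤ, Joins m) := MeasurableSet.iUnion joins_meas
  have hi : F ⁻¹' (⋃ m : ℤ, Joins m) = ⋃ m : ℤ, Joins m := by
    rw [preimage_iUnion]
    exact iUnion_congr joins_inv
  have hnull : volume (⋃ m : ℤ, Joins m)ᶜ = 0 := by
    have h1 := ae_follow
    rw [ae_iff] at h1
    refine measure_mono_null ?_ h1
    intro x hx hx2
    obtain ⟨n, k, h2, -⟩ := hx2
    apply hx
    rw [mem_iUnion]
    exact ⟨n, k, 0, h2⟩
  have hlim := (h _ hm hi b).2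
  refine tendsto_nhds_unique hlim ?_
  refine tendsto_const_nhds.congr fun j => ?_
  have h3 := den_compl hm (un b j)
  have h4 : den (⋃ m : ℤ, Joins m)ᶜ (un b j) = 0 := by
    unfold den
    rw [measure_mono_null inter_subset_left hnull, ENNReal.toReal_zero]
  linarith

end Pool.Agent.E8helper52.DL
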